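import Pool.Agent.H77.SW.Defs
import Pool.Agent.H4.Singer2.GAnBase

/-!
# Singer without colours: a field with generic elements
-/

set_option autoImplicit false

namespace Pool.Agent.H77.SW

open Pool.Agent.H4.Singer2

theorem exists_genSeq : ∃ (K : Type) (_ : Field K) (_ : CharP K 2), Nonempty (GenSeq K) :=
  ⟨RF ℕ, inferInstance, inferInstance, ⟨⟨xv, fun 𝓢 c h S hS => sum_prod_sq 𝓢 c h S hS⟩⟩⟩

end Pool.Agent.H77.SW
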