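import Pool.Agent.H4.Singer.Defs
import Pool.Agent.H85.VK.Defs

/-!
# Singer without colours: definitions

`Zs` = cycles of top degree with coefficients in a vector space with involutions; `PG` = finite groups
with marked involutions; the extension module `rE`.
-/

set_option autoImplicit false
set_option linter.unusedSectionVars false

open Finset

namespace Pool.Agent.H77.SW

variable {V : Type} [DecidableEq V] [Fintype V]

/-- cycles of degree `n` (`n` = number of vertices of the facets) with coefficients in `Y` -/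
def Zs (K : Type) [Field K] (G : SimpleGraph V) (n : ℕ) {Y : Type} [AddCommGroup Y] [Module K Y]
    (r : V → Y →ₗ[K] Y) : Submodule K (Finset V → Y) where
  carrier := {z | (∀ σ, z σ ≠ 0 → G.IsClique (σ : Set V) ∧ σ.card = n) ∧
    (∀ σ, ∀ v ∈ σ, r v (z σ) = z σ) ∧ ∀ κ, ∑ v ∈ κᶜ, z (insert v κ) = 0}
  zero_mem' := by
    refine ⟨fun σ h => absurd rfl h, fun σ v _ => ?_, fun κ => ?_⟩
    · simp
    · simp
  add_mem' := by
    rintro z w ⟨h1, h2, h3⟩ ⟨h4, h5, h6⟩
    refine ⟨fun σ h => ?_, fun σ v hv => ?_, fun κ => ?_⟩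
    · by_cases hz : z σ = 0
      · by_cases hw : w σ = 0
        · exact absurd (by simp [hz, hw]) h
        · exact h4 σ hw
      · exact h1 σ hz
    · rw [Pi.add_apply, map_add, h2 σ v hv, h5 σ v hv]
    · simp only [Pi.add_apply, sum_add_distrib, h3 κ, h6 κ, add_zero]
  smul_mem' := by
    rintro c z ⟨h1, h2, h3⟩
    refine ⟨fun σ h => h1 σ fun h0 => h ?_, fun σ v hv => ?_, fun κ => ?_⟩
    · rw [Pi.smul_apply, h0, smul_zero]
    · rw [Pi.smul_apply, map_smul, h2 σ v hv]
    · simp only [Pi.smul_apply, ← smul_sum, h3 κ, smul_zero]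

theorem mem_Zs {K : Type} [Field K] {G : SimpleGraph V} {n : ℕ} {Y : Type} [AddCommGroup Y]
    [Module K Y] {r : V → Y →ₗ[K] Y} {z : Finset V → Y} : z ∈ Zs K G n r ↔
      (∀ σ, z σ ≠ 0 → G.IsClique (σ : Set V) ∧ σ.card = n) ∧
      (∀ σ, ∀ v ∈ σ, r v (z σ) = z σ) ∧ ∀ κ, ∑ v ∈ κᶜ, z (insert v κ) = 0 := Iff.rfl

/-- a two-group `P` with marked involutions `g v`, which commute for the edges `u v`, and a
homomorphism `b` to the cube -/
structure PG (G : SimpleGraph V) (P : Type) [Group P] where
  /-- the involutions -/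
  g : V → P
  sq : ∀ v, g v * g v = 1
  comm : ∀ u v, G.Adj u v → g u * g v = g v * g u
  /-- the homomorphism to the cube -/
  b : P → V → ZMod 2
  b_mul : ∀ p q v, b (p * q) v = b p v + b q v
  b_g : ∀ u v, b (g u) v = if u = v then 1 else 0
  two : IsPGroup 2 P

/-- the regular representation: `(r v f) p = f (p * g v)` -/
def rP (K : Type) [Field K] {G : SimpleGraph V} {P : Type} [Group P] (D : PG G P) (v : V) :
    (P → K) →ₗ[K] (P → K) where
  toFun f p := f (p * D.g v)
  map_add' _ _ := rfl
  map_smul' _ _ := rfl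

/-- the dimension of the space of cycles with coefficients in the regular representation -/
noncomputable def dz (K : Type) [Field K] {G : SimpleGraph V} (n : ℕ) {P : Type} [Group P]
    (D : PG G P) : ℕ := Module.finrank K (Zs K G n (rP K D))

/-- the cycles whose component at `σ` vanishes -/
def Z0 (K : Type) [Field K] {G : SimpleGraph V} (n : ℕ) {P : Type} [Group P] (D : PG G P)
    (σ : Finset V) : Submodule K (Finset V → P → K) :=
  Zs K G n (rP K D) ⊓ LinearMap.ker (LinearMap.proj (R := K) (φ := fun _ : Finset V => P → K) σ)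

/-- the subgroups generated by subsets of the generators intersect well -/
def Good {G : SimpleGraph V} {P : Type} [Group P] (D : PG G P) : Prop :=
  ∀ S T : Set V, Subgroup.closure (D.g '' S) ⊓ Subgroup.closure (D.g '' T) ≤
    Subgroup.closure (D.g '' (S ∩ T))

/-- the extension module: functions of `(A, p)`, `A` a set of vertices. The vertices in `s` act by
`(r v f) (A, p) = f (A, p g v) + [v ∈ A] t v p f (A - v, p g v)`, the others by
`f (A, p g v)`. -/
def rE {K : Type} [Field K] {G : SimpleGraph V} {P : Type} [Group P] (D : PG G P)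
    (s : Finset V) (t : V → P → K) (v : V) :
    (Finset V × P → K) →ₗ[K] (Finset V × P → K) where
  toFun f x := f (x.1, x.2 * D.g v) +
    if v ∈ s ∧ v ∈ x.1 then t v x.2 * f (x.1.erase v, x.2 * D.g v) else 0
  map_add' f f' := by
    funext x
    simp only [Pi.add_apply]
    split_ifs <;> ring
  map_smul' c f := by
    funext x
    simp only [Pi.smul_apply, smul_eq_mul, RingHom.id_apply]
    split_ifs <;> ring

/-- the functions `t v` are constant along the cosets of the stars -/
def StarInv {K : Type} {G : SimpleGraph V} {P : Type} [Group P] (D : PG G P) (t : V → P → K) :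
    Prop := ∀ v u, (u = v ∨ G.Adj v u) → ∀ p, t v (p * D.g u) = t v p

/-- the products of the `t v` over `s` are independent over the squares (on the `p` whose bits
vanish on `s`) -/
def GenOn {K : Type} [Field K] {G : SimpleGraph V} {P : Type} [Group P] [Fintype P]
    (D : PG G P) (s : Finset V) (t : V → P → K) : Prop :=
  ∀ c : P → K, (∀ p, (∃ v ∈ s, D.b p v ≠ 0) → c p = 0) →
    ∑ p, (∏ v ∈ s, t v p) * c p ^ 2 = 0 → c = 0

/-- a field of characteristic two with infinitely many elements whose squarefree monomials are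
independent over the squares -/
structure GenSeq (K : Type) [Field K] where
  /-- the sequence -/
  x : ℕ → K
  indep : ∀ (𝓢 : Finset (Finset ℕ)) (c : Finset ℕ → K),
    ∑ S ∈ 𝓢, (∏ i ∈ S, x i) * c S ^ 2 = 0 → ∀ S ∈ 𝓢, c S = 0

end Pool.Agent.H77.SW
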