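import Pool.Agent.H77.SW.Defs

/-!
# Singer without colours: the lower bound for modules over finite two-groups
-/

set_option autoImplicit false
set_option linter.unusedSectionVars false

open Finset

namespace Pool.Agent.H77.SW

variable {V : Type} [DecidableEq V] [Fintype V] {K : Type} [Field K] [CharP K 2]

/-- the involutions on the functions `P → (J → K)` -/
private def lrh {G : SimpleGraph V} {P : Type} [Group P] (D : PG G P) {J : Type}
    (r : V → (J → K) →ₗ[K] (J → K)) (v : V) : (P → J → K) →ₗ[K] (P → J → K) where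
  toFun φ p := r v (φ (p * D.g v))
  map_add' φ ψ := by
    funext p
    simp
  map_smul' c φ := by
    funext p
    simp

/-- the functions which are invariant under the left translations by `H` -/
private def lS (G : SimpleGraph V) (n : ℕ) {P : Type} [Group P] (D : PG G P) {J : Type}
    (r : V → (J → K) →ₗ[K] (J → K)) (H : Subgroup P) : Submodule K (Finset V → P → J → K) where
  carrier := {φ | φ ∈ Zs K G n (lrh D r) ∧ ∀ h ∈ H, ∀ σ p, φ σ (h * p) = φ σ p}
  zero_mem' := ⟨Submodule.zero_mem _, fun _ _ _ _ => rfl⟩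
  add_mem' := by
    rintro φ ψ ⟨h1, h2⟩ ⟨h3, h4⟩
    refine ⟨Submodule.add_mem _ h1 h3, fun h hh σ p => ?_⟩
    simp only [Pi.add_apply, h2 h hh, h4 h hh]
  smul_mem' := by
    rintro c φ ⟨h1, h2⟩
    refine ⟨Submodule.smul_mem _ c h1, fun h hh σ p => ?_⟩
    simp only [Pi.smul_apply, h2 h hh]

private theorem mem_lS {G : SimpleGraph V} {n : ℕ} {P : Type} [Group P] {D : PG G P} {J : Type}
    {r : V → (J → K) →ₗ[K] (J → K)} {H : Subgroup P} {φ : Finset V → P → J → K} :
    φ ∈ lS G n D r H ↔ φ ∈ Zs K G n (lrh D r) ∧ ∀ h ∈ H, ∀ σ p, φ σ (h * p) = φ σ p := Iff.rfl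

/-- left translation preserves the cycles -/
private theorem trans_mem {G : SimpleGraph V} {n : ℕ} {P : Type} [Group P] {D : PG G P} {J : Type}
    {r : V → (J → K) →ₗ[K] (J → K)} {φ : Finset V → P → J → K} (h : φ ∈ Zs K G n (lrh D r))
    (c : P) : (fun σ p => φ σ (c * p)) ∈ Zs K G n (lrh D r) := by
  obtain ⟨h1, h2, h3⟩ := h
  refine ⟨fun σ hσ => h1 σ fun h0 => hσ ?_, fun σ v hv => ?_, fun κ => ?_⟩
  · funext p
    change φ σ (c * p) = 0
    rw [h0]
    rfl
  · funext p
    have := congrFun (h2 σ v hv) (c * p)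
    simpa [lrh, mul_assoc] using this
  · funext p
    have := congrFun (h3 κ) (c * p)
    simpa [Finset.sum_apply] using this

/-- the left translation as a linear map -/
private def lT {P : Type} [Group P] {J : Type} (c : P) :
    (Finset V → P → J → K) →ₗ[K] (Finset V → P → J → K) where
  toFun φ σ p := φ σ p + φ σ (c * p)
  map_add' φ ψ := by
    funext σ p
    simp only [Pi.add_apply]
    abel
  map_smul' k φ := by
    funext σ p
    simp

private theorem char_add {J : Type} (f : J → K) : f + f = 0 := by
  funext j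
  exact CharTwo.add_self_eq_zero _

private theorem step (G : SimpleGraph V) (n : ℕ) {P : Type} [Group P] [Fintype P] (D : PG G P)
    {J : Type} [Fintype J] (r : V → (J → K) →ₗ[K] (J → K)) {H H' : Subgroup P} (hle : H ≤ H')
    (hc : Nat.card H' = 2 * Nat.card H) :
    Module.finrank K (lS G n D r H) ≤ 2 * Module.finrank K (lS G n D r H') := by
  have hpos : 0 < Nat.card H := Nat.card_pos
  -- an element outside
  obtain ⟨c, hc1, hc2⟩ : ∃ c ∈ H', c ∉ H := by
    by_contra hcon
    push Not at hcon
    have : H = H' := le_antisymm hle hcon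
    rw [this] at hc hpos
    omega
  have hidx : (H.subgroupOf H').index = 2 := by
    have h1 := (H.subgroupOf H').card_mul_index
    have h2 : Nat.card (H.subgroupOf H') = Nat.card H :=
      Nat.card_congr (Subgroup.subgroupOfEquivOfLe hle).toEquiv
    rw [h2, hc] at h1
    have h3 : Nat.card H * (H.subgroupOf H').index = Nat.card H * 2 := by rw [h1]; ring
    exact Nat.eq_of_mul_eq_mul_left hpos h3
  have hmul : ∀ a ∈ H', ∀ b ∈ H', a ∉ H → b ∉ H → a * b ∈ H := by
    intro a ha b hb ha' hb'
    have := (Subgroup.mul_mem_iff_of_index_two hidx (a := ⟨a, ha⟩) (b := ⟨b, hb⟩))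
    simp only [Subgroup.mem_subgroupOf] at this
    exact this.2 (by simp [ha', hb'])
  have hci : c⁻¹ ∉ H := fun h => hc2 (by simpa using H.inv_mem h)
  have hnot : ∀ h ∈ H, c * h ∉ H := fun h hh h' => hc2 (by
    have := H.mul_mem h' (H.inv_mem hh)
    simpa using this)
  -- the norm maps into the invariants
  have hmaps : ∀ φ ∈ lS G n D r H, lT c φ ∈ lS G n D r H' := by
    rintro φ ⟨h1, h2⟩
    refine ⟨Submodule.add_mem _ h1 (trans_mem h1 c), fun h hh σ p => ?_⟩
    change φ σ (h * p) + φ σ (c * (h * p)) = φ σ p + φ σ (c * p)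
    by_cases hH : h ∈ H
    · rw [h2 h hH]
      have h3 : c * h * c⁻¹ ∈ H := hmul _ (H'.mul_mem hc1 hh) _ (H'.inv_mem hc1) (hnot h hH) hci
      have h4 : c * (h * p) = c * h * c⁻¹ * (c * p) := by group
      rw [h4, h2 _ h3]
    · have h3 : h * c⁻¹ ∈ H := hmul _ hh _ (H'.inv_mem hc1) hH hci
      have h4 : h * p = h * c⁻¹ * (c * p) := by group
      have h5 : c * h ∈ H := hmul _ hc1 _ hh hc2 hH
      have h6 : c * (h * p) = c * h * p := by group
      rw [h6, h2 _ h5, h4, h2 _ h3]
      exact add_comm _ _
  let N : lS G n D r H →ₗ[K] lS G n D r H' :=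
    ((lT c).comp (lS G n D r H).subtype).codRestrict _ fun φ => hmaps φ.1 φ.2
  have hker : Module.finrank K (LinearMap.ker N) ≤ Module.finrank K (lS G n D r H') := by
    have hk : ∀ x : LinearMap.ker N, ((x : lS G n D r H) : Finset V → P → J → K) ∈
        lS G n D r H' := by
      rintro ⟨⟨φ, h1, h2⟩, hx⟩
      have h0 : ∀ σ p, φ σ (c * p) = φ σ p := by
        intro σ p
        have h3 : (N ⟨φ, h1, h2⟩ : Finset V → P → J → K) = 0 := by
          rw [LinearMap.mem_ker.1 hx]
          rfl
        have h4 : φ σ p + φ σ (c * p) = 0 := congrFun (congrFun h3 σ) p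
        have h5 := char_add (K := K) (φ σ p)
        exact (add_left_cancel (h5.trans h4.symm)).symm
      refine ⟨h1, fun h hh σ p => ?_⟩
      change φ σ (h * p) = φ σ p
      by_cases hH : h ∈ H
      · exact h2 h hH σ p
      · have h3 : h * c⁻¹ ∈ H := hmul _ hh _ (H'.inv_mem hc1) hH hci
        have h4 : h * p = h * c⁻¹ * (c * p) := by group
        rw [h4, h2 _ h3, h0]
    let M : LinearMap.ker N →ₗ[K] lS G n D r H' :=
      ((lS G n D r H).subtype.comp (LinearMap.ker N).subtype).codRestrict _ hk
    refine LinearMap.finrank_le_finrank_of_injective (f := M) ?_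
    intro x y hxy
    have := congrArg Subtype.val hxy
    exact Subtype.ext (Subtype.ext this)
  have h1 := LinearMap.finrank_range_add_finrank_ker N
  have h2 := Submodule.finrank_le (LinearMap.range N)
  omega

/-- **The lower bound.** Let `R` be a family of injective maps with `r v ∘ R (p * g v) = R p` (for
instance `R p = ρ (p⁻¹)` for a representation `ρ` of `P` with `ρ (g v) = r v`). Then
`dim (J → K) * dim Z(K[P]) ≤ |P| * dim Z(J → K)`.

Proof. Consider the functions `φ : P → (J → K)` with the involutions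
`(r̂ v φ) p = r v (φ (p * g v))`.
(1) The map which sends `(z j)_j`, `z j ∈ Zs K G n (rP K D)`, to `φ σ p = R p (fun j => z j σ p)` is an
injective linear map `(J → Zs K G n (rP K D)) → Zs K G n r̂`.
(2) For a subgroup `H` let `S H` be the subspace of the `φ ∈ Zs K G n r̂` with `φ σ (h * p) = φ σ p` for
`h ∈ H`. `S ⊤` is isomorphic to `Zs K G n r` (`φ ↦ φ · 1`). If `H ≤ H'` has index two and
`c ∈ H' \ H` then `φ ↦ φ + φ (c * ·)` maps `S H` to `S H'` and its kernel is in `S H'` (characteristic
two); so `finrank (S H) ≤ 2 * finrank (S H')`. By `Sylow.exists_subgroup_card_pow_succ` there is a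
chain from `⊥` to `⊤`. -/
theorem lower (G : SimpleGraph V) (n : ℕ) {P : Type} [Group P] [Fintype P] (D : PG G P)
    {J : Type} [Fintype J] (r : V → (J → K) →ₗ[K] (J → K)) (R : P → (J → K) →ₗ[K] (J → K))
    (hR : ∀ p, Function.Injective (R p)) (hr : ∀ p v f, r v (R (p * D.g v) f) = R p f) :
    Fintype.card J * dz K n D ≤ Fintype.card P * Module.finrank K (Zs K G n r) := by
  classical
  -- (1)
  have h1 : Fintype.card J * dz K n D ≤ Module.finrank K (Zs K G n (lrh D r)) := by
    let Φ : (J → Zs K G n (rP K D)) →ₗ[K] (Finset V → P → J → K) :=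
      { toFun := fun z σ p => R p (fun j => (z j).1 σ p)
        map_add' := fun z w => by
          funext σ p
          rw [show (fun j => ((z + w) j).1 σ p) = (fun j => (z j).1 σ p) + fun j => (w j).1 σ p
            from rfl, map_add]
          rfl
        map_smul' := fun c z => by
          funext σ p
          rw [show (fun j => ((c • z) j).1 σ p) = c • (fun j => (z j).1 σ p) from rfl, map_smul]
          rfl }
    have hΦ : ∀ z, Φ z ∈ Zs K G n (lrh D r) := by
      intro z
      refine ⟨fun σ hσ => ?_, fun σ v hv => ?_, fun κ => ?_⟩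
      · by_contra hcon
        refine hσ ?_
        have h0 : ∀ j, (z j).1 σ = 0 := by
          intro j
          by_contra h
          exact hcon ((z j).2.1 σ h)
        funext p
        change R p (fun j => (z j).1 σ p) = 0
        rw [show (fun j => (z j).1 σ p) = 0 from funext fun j => by rw [h0 j]; rfl, map_zero]
      · funext p
        change r v (R (p * D.g v) (fun j => (z j).1 σ (p * D.g v))) = R p (fun j => (z j).1 σ p)
        rw [hr]
        congr 1
        funext j
        exact congrFun ((z j).2.2.1 σ v hv) p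
      · funext p
        rw [Finset.sum_apply]
        change ∑ v ∈ κᶜ, R p (fun j => (z j).1 (insert v κ) p) = 0
        rw [← map_sum]
        have : (∑ v ∈ κᶜ, fun j => (z j).1 (insert v κ) p) = (0 : J → K) := by
          funext j
          rw [Finset.sum_apply]
          have := congrFun ((z j).2.2.2 κ) p
          rw [Finset.sum_apply] at this
          exact this
        rw [this, map_zero]
    have hinj : Function.Injective (Φ.codRestrict (Zs K G n (lrh D r)) hΦ) := by
      intro z w hzw
      have h2 : Φ z = Φ w := congrArg Subtype.val hzw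
      funext j
      refine Subtype.ext ?_
      funext σ p
      have h3 : R p (fun j => (z j).1 σ p) = R p (fun j => (w j).1 σ p) :=
        congrFun (congrFun h2 σ) p
      exact congrFun (hR p h3) j
    have h2 := LinearMap.finrank_le_finrank_of_injective hinj
    rw [Module.finrank_pi_fintype, Finset.sum_const, Finset.card_univ, smul_eq_mul] at h2
    exact h2
  -- (2)
  have h2 : Module.finrank K (Zs K G n (lrh D r)) ≤ Module.finrank K (lS G n D r ⊥) := by
    have hm : ∀ z : Zs K G n (lrh D r), (z : Finset V → P → J → K) ∈ lS G n D r ⊥ := by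
      rintro ⟨z, hz⟩
      refine ⟨hz, fun h hh σ p => ?_⟩
      rw [Subgroup.mem_bot.1 hh, one_mul]
    refine LinearMap.finrank_le_finrank_of_injective
      (f := (Zs K G n (lrh D r)).subtype.codRestrict _ hm) ?_
    intro x y hxy
    have := congrArg Subtype.val hxy
    exact Subtype.ext this
  have h3 : Module.finrank K (lS G n D r ⊤) ≤ Module.finrank K (Zs K G n r) := by
    let E : (Finset V → P → J → K) →ₗ[K] (Finset V → J → K) :=
      { toFun := fun φ σ => φ σ 1
        map_add' := fun _ _ => rfl
        map_smul' := fun _ _ => rfl }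
    have hconst : ∀ φ ∈ lS G n D r ⊤, ∀ σ p, φ σ p = φ σ 1 := by
      rintro φ ⟨-, hφ⟩ σ p
      have := hφ p (Subgroup.mem_top _) σ 1
      rw [mul_one] at this
      exact this
    have hE : ∀ φ : lS G n D r ⊤, (E.comp (lS G n D r ⊤).subtype) φ ∈ Zs K G n r := by
      rintro ⟨φ, hφ⟩
      have hc := hconst φ hφ
      obtain ⟨⟨h4, h5, h6⟩, -⟩ := hφ
      refine ⟨fun σ hσ => h4 σ fun h0 => hσ ?_, fun σ v hv => ?_, fun κ => ?_⟩
      · change φ σ 1 = 0
        rw [h0]
        rfl
      · change r v (φ σ 1) = φ σ 1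
        have := congrFun (h5 σ v hv) 1
        change r v (φ σ (1 * D.g v)) = φ σ 1 at this
        rwa [hc σ (1 * D.g v)] at this
      · change ∑ v ∈ κᶜ, φ (insert v κ) 1 = 0
        have := congrFun (h6 κ) 1
        rw [Finset.sum_apply] at this
        exact this
    refine LinearMap.finrank_le_finrank_of_injective
      (f := (E.comp (lS G n D r ⊤).subtype).codRestrict _ hE) ?_
    intro x y hxy
    refine Subtype.ext ?_
    funext σ p
    rw [hconst _ x.2, hconst _ y.2]
    exact congrFun (congrArg Subtype.val hxy) σ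
  -- the chain
  obtain ⟨N, hN⟩ := (IsPGroup.iff_card (p := 2)).1 D.two
  have h4 : ∀ m ≤ N, ∃ H : Subgroup P, Nat.card H = 2 ^ m ∧
      Module.finrank K (lS G n D r ⊥) ≤ 2 ^ m * Module.finrank K (lS G n D r H) := by
    intro m
    induction m with
    | zero => exact fun _ => ⟨⊥, by simp, by simp⟩
    | succ m ih =>
      intro hm
      obtain ⟨H, hH1, hH2⟩ := ih (by omega)
      have : Fact (Nat.Prime 2) := ⟨Nat.prime_two⟩
      obtain ⟨H', hH3, hH4⟩ := Sylow.exists_subgroup_card_pow_succ (p := 2) (n := m) (G := P)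
        (by rw [hN]; exact pow_dvd_pow 2 hm) hH1
      refine ⟨H', hH3, hH2.trans ?_⟩
      have h5 := step (K := K) G n D r hH4 (by rw [hH3, hH1, pow_succ]; ring)
      calc 2 ^ m * Module.finrank K (lS G n D r H)
          ≤ 2 ^ m * (2 * Module.finrank K (lS G n D r H')) := Nat.mul_le_mul_left _ h5
        _ = 2 ^ (m + 1) * Module.finrank K (lS G n D r H') := by rw [pow_succ]; ring
  obtain ⟨H, hH1, hH2⟩ := h4 N le_rfl
  have hHt : H = ⊤ := by
    refine Subgroup.eq_top_of_card_eq H ?_
    rw [hH1, hN]
  rw [hHt] at hH2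
  have hcard : Fintype.card P = 2 ^ N := by rw [← Nat.card_eq_fintype_card, hN]
  rw [hcard]
  exact h1.trans (h2.trans (hH2.trans (Nat.mul_le_mul_left _ h3)))

end Pool.Agent.H77.SW
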