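import Pool.Agent.H77.SW.Lower

/-!
# Singer without colours: the extension module as a module over a finite two-group
-/

set_option autoImplicit false
set_option linter.unusedSectionVars false

open Finset

namespace Pool.Agent.H77.SW

variable {V : Type} [DecidableEq V] [Fintype V] {K : Type} [Field K] [CharP K 2]

/-- the semidirect product of the functions with values in a vector space over the field of two
elements and `P` -/
def Ext_G (V P I : Type) : Type := (V → P → I → ZMod 2) × P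

instance Ext_mul (V P I : Type) [Group P] : Mul (Ext_G V P I) :=
  ⟨fun q q' => (fun v x => q.1 v x + q'.1 v (x * q.2), q.2 * q'.2)⟩

instance Ext_one (V P I : Type) [Group P] : One (Ext_G V P I) := ⟨(fun _ _ => 0, 1)⟩

instance Ext_inv (V P I : Type) [Group P] : Inv (Ext_G V P I) :=
  ⟨fun q => (fun v x => - q.1 v (x * q.2⁻¹), q.2⁻¹)⟩

private theorem Ext_ext {V P I : Type} {q q' : Ext_G V P I} (h1 : ∀ v x, q.1 v x = q'.1 v x)
    (h2 : q.2 = q'.2) : q = q' :=
  Prod.ext (funext fun v => funext fun x => h1 v x) h2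

private theorem Ext_mul_fst {V P I : Type} [Group P] (q q' : Ext_G V P I) (v : V) (x : P) :
    (q * q').1 v x = q.1 v x + q'.1 v (x * q.2) := rfl

private theorem Ext_mul_snd {V P I : Type} [Group P] (q q' : Ext_G V P I) :
    (q * q').2 = q.2 * q'.2 := rfl

instance Ext_group (V P I : Type) [Group P] : Group (Ext_G V P I) :=
  Group.ofLeftAxioms
    (by
      intro a b c
      refine Ext_ext (fun v x => ?_) ?_
      · rw [Ext_mul_fst, Ext_mul_fst, Ext_mul_fst, Ext_mul_fst, Ext_mul_snd, mul_assoc x a.2 b.2,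
          add_assoc]
      · rw [Ext_mul_snd, Ext_mul_snd, Ext_mul_snd, Ext_mul_snd, mul_assoc])
    (by
      intro a
      refine Ext_ext (fun v x => ?_) ?_
      · rw [Ext_mul_fst]
        change 0 + a.1 v (x * 1) = a.1 v x
        rw [mul_one, zero_add]
      · rw [Ext_mul_snd]
        exact one_mul a.2)
    (by
      intro a
      refine Ext_ext (fun v x => ?_) ?_
      · rw [Ext_mul_fst]
        change - a.1 v (x * a.2⁻¹) + a.1 v (x * a.2⁻¹) = 0
        rw [neg_add_cancel]
      · rw [Ext_mul_snd]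
        exact inv_mul_cancel a.2)

instance Ext_finite (V P I : Type) [Finite V] [Finite P] [Finite I] : Finite (Ext_G V P I) :=
  inferInstanceAs (Finite ((V → P → I → ZMod 2) × P))

private theorem Ext_pgroup (V P I : Type) [Finite V] [Group P] [Finite P] [Finite I]
    (h : IsPGroup 2 P) : IsPGroup 2 (Ext_G V P I) := by
  have : Fact (Nat.Prime 2) := ⟨Nat.prime_two⟩
  obtain ⟨m, hm⟩ := IsPGroup.iff_card.1 h
  refine IsPGroup.iff_card.2 ⟨((Nat.card I * Nat.card P) * Nat.card V) + m, ?_⟩
  have h1 : Nat.card (Ext_G V P I) = Nat.card (V → P → I → ZMod 2) * Nat.card P :=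
    Nat.card_prod _ _
  have h2 : Nat.card (V → P → I → ZMod 2) = 2 ^ ((Nat.card I * Nat.card P) * Nat.card V) := by
    rw [Nat.card_fun, Nat.card_fun, Nat.card_fun, Nat.card_zmod, ← pow_mul, ← pow_mul, mul_assoc]
  rw [h1, h2, hm, ← pow_add]

/-- the operator `∏ c ∈ s, (1 + a c E c)` at one point -/
private def Ext_T (s : Finset V) (a : V → K) (f : Finset V → K) (A : Finset V) : K :=
  ∑ B ∈ (A ∩ s).powerset, (∏ c ∈ B, a c) * f (A \ B)

private theorem Ext_T_off (s : Finset V) (a b : V → K) (f : Finset V → K) (A : Finset V)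
    (h : ∀ c ∈ A, a c = b c) : Ext_T s a f A = Ext_T s b f A := by
  unfold Ext_T
  refine sum_congr rfl fun B hB => ?_
  have hBA : B ⊆ A := (mem_powerset.1 hB).trans inter_subset_left
  rw [prod_congr rfl fun c hc => h c (hBA hc)]

private theorem Ext_T_on (s : Finset V) (a b : V → K) (t : K) (f : Finset V → K) (A : Finset V)
    (v : V) (hvA : v ∈ A) (hvs : v ∈ s) (h : ∀ c, c ≠ v → b c = a c) (hv : b v = a v + t) :
    Ext_T s b f A = Ext_T s a f A + t * Ext_T s a f (A.erase v) := by
  unfold Ext_T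
  have hins : A ∩ s = insert v (A.erase v ∩ s) := by
    ext c
    simp only [mem_inter, mem_insert, mem_erase]
    constructor
    · rintro ⟨h1, h2⟩
      by_cases hc : c = v
      · exact Or.inl hc
      · exact Or.inr ⟨⟨hc, h1⟩, h2⟩
    · rintro (h1 | ⟨⟨_, h1⟩, h2⟩)
      · rw [h1]; exact ⟨hvA, hvs⟩
      · exact ⟨h1, h2⟩
  have hnot : v ∉ A.erase v ∩ s := by
    intro hc
    exact (mem_erase.1 (mem_inter.1 hc).1).1 rfl
  have key : ∀ B ∈ (A.erase v ∩ s).powerset, v ∉ B := fun B hB hc =>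
    hnot (mem_powerset.1 hB hc)
  have hprod : ∀ B ∈ (A.erase v ∩ s).powerset, ∏ c ∈ B, b c = ∏ c ∈ B, a c := by
    intro B hB
    refine prod_congr rfl fun c hc => h c fun hcv => ?_
    rw [hcv] at hc
    exact key B hB hc
  rw [hins, sum_powerset_insert hnot, sum_powerset_insert hnot, mul_sum, ← sum_add_distrib,
    ← sum_add_distrib, ← sum_add_distrib]
  refine sum_congr rfl fun B hB => ?_
  have h1 : A \ insert v B = (A.erase v) \ B := by
    ext c
    simp only [mem_sdiff, mem_insert, mem_erase]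
    tauto
  rw [prod_insert (key B hB), prod_insert (key B hB), h1, hv, hprod B hB]
  ring

private theorem Ext_T_inj (s : Finset V) (a : V → K) (f : Finset V → K)
    (h : ∀ A, Ext_T s a f A = 0) : ∀ A, f A = 0 := by
  intro A
  induction A using Finset.strongInduction with
  | H A ih =>
    have h1 := h A
    unfold Ext_T at h1
    rw [← Finset.add_sum_erase _ _ (empty_mem_powerset (A ∩ s))] at h1
    have h2 : ∑ B ∈ ((A ∩ s).powerset).erase ∅, (∏ c ∈ B, a c) * f (A \ B) = 0 := by
      refine sum_eq_zero fun B hB => ?_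
      obtain ⟨hB0, hB1⟩ := mem_erase.1 hB
      have hBA : B ⊆ A := (mem_powerset.1 hB1).trans inter_subset_left
      obtain ⟨c, hc⟩ := nonempty_iff_ne_empty.2 hB0
      have hss : A \ B ⊂ A := by
        refine ⟨sdiff_subset, fun hsub => ?_⟩
        exact (mem_sdiff.1 (hsub (hBA hc))).2 hc
      rw [ih _ hss, mul_zero]
    rw [h2, add_zero, prod_empty, one_mul, sdiff_empty] at h1
    exact h1

/-- the value of a vector in the field -/
private def Ext_ev {I : Type} [Fintype I] (τ : I → K) (c : I → ZMod 2) : K :=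
  ∑ i, ZMod.castHom (dvd_refl 2) K (c i) * τ i

private theorem Ext_ev_single {I : Type} [Fintype I] [DecidableEq I] (τ : I → K) (c : I → ZMod 2)
    (j : I) : Ext_ev τ (c + Pi.single j 1) = Ext_ev τ c + τ j := by
  unfold Ext_ev
  have h1 : ∀ i, ZMod.castHom (dvd_refl 2) K ((c + (Pi.single j 1 : I → ZMod 2)) i) * τ i =
      ZMod.castHom (dvd_refl 2) K (c i) * τ i + if i = j then τ i else 0 := by
    intro i
    rw [Pi.add_apply, map_add, add_mul]
    congr 1
    by_cases hij : i = j
    · rw [if_pos hij, hij, Pi.single_eq_same, map_one, one_mul]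
    · rw [if_neg hij, Pi.single_eq_of_ne hij, map_zero, zero_mul]
  rw [sum_congr rfl fun i _ => h1 i, sum_add_distrib, sum_ite_eq' univ j τ, if_pos (mem_univ j)]

/-- the marked involutions -/
private def Ext_g {P : Type} [Group P] {G : SimpleGraph V} (D : PG G P) (s : Finset V) {I : Type}
    [DecidableEq I] (ι : V → P → I) (v : V) : Ext_G V P I :=
  (fun w x => if w = v ∧ v ∈ s then Pi.single (ι v x) 1 else 0, D.g v)

private theorem Ext_two (I : Type) (c : I → ZMod 2) : c + c = 0 := by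
  funext i
  exact CharTwo.add_self_eq_zero (c i)

/-- the group with its marked involutions -/
private def Ext_D {P : Type} [Group P] [Finite P] {G : SimpleGraph V} (D : PG G P) (s : Finset V)
    {I : Type} [Finite I] [DecidableEq I] (ι : V → P → I)
    (hι : ∀ v u, (u = v ∨ G.Adj v u) → ∀ p, ι v (p * D.g u) = ι v p) :
    PG G (Ext_G V P I) where
  g := Ext_g D s ι
  sq v := by
    refine Ext_ext (fun w x => ?_) ?_
    · rw [Ext_mul_fst]
      change (if w = v ∧ v ∈ s then Pi.single (ι v x) 1 else 0) +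
        (if w = v ∧ v ∈ s then Pi.single (ι v (x * D.g v)) 1 else 0) = (0 : I → ZMod 2)
      rw [hι v v (Or.inl rfl) x]
      exact Ext_two I _
    · exact D.sq v
  comm u v huv := by
    refine Ext_ext (fun w x => ?_) ?_
    · rw [Ext_mul_fst, Ext_mul_fst]
      change (if w = u ∧ u ∈ s then Pi.single (ι u x) 1 else 0) +
        (if w = v ∧ v ∈ s then Pi.single (ι v (x * D.g u)) 1 else 0) =
        (if w = v ∧ v ∈ s then Pi.single (ι v x) 1 else 0) +
        (if w = u ∧ u ∈ s then Pi.single (ι u (x * D.g v)) 1 else 0 : I → ZMod 2)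
      rw [hι v u (Or.inr huv.symm) x, hι u v (Or.inr huv) x]
      exact add_comm _ _
    · exact D.comm u v huv
  b q v := D.b q.2 v
  b_mul p q v := by
    rw [Ext_mul_snd]
    exact D.b_mul p.2 q.2 v
  b_g u v := D.b_g u v
  two := Ext_pgroup V P I D.two

/-- the action on the extension module -/
private def Ext_R {P : Type} [Group P] (s : Finset V) {I : Type} [Fintype I] (τ : I → K)
    (q : Ext_G V P I) : (Finset V × P → K) →ₗ[K] (Finset V × P → K) where
  toFun f x := Ext_T s (fun c => Ext_ev τ (q.1 c (x.2 * q.2⁻¹))) (fun A => f (A, x.2 * q.2⁻¹)) x.1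
  map_add' f f' := by
    funext x
    simp only [Ext_T, Pi.add_apply, mul_add, sum_add_distrib]
  map_smul' c f := by
    funext x
    simp only [Ext_T, Pi.smul_apply, smul_eq_mul, RingHom.id_apply, mul_sum]
    exact sum_congr rfl fun B _ => by ring

private theorem Ext_R_apply {P : Type} [Group P] (s : Finset V) {I : Type} [Fintype I] (τ : I → K)
    (q : Ext_G V P I) (f : Finset V × P → K) (A : Finset V) (x : P) :
    Ext_R s τ q f (A, x) =
      Ext_T s (fun c => Ext_ev τ (q.1 c (x * q.2⁻¹))) (fun A => f (A, x * q.2⁻¹)) A := rfl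

private theorem Ext_R_inj {P : Type} [Group P] (s : Finset V) {I : Type} [Fintype I] (τ : I → K)
    (q : Ext_G V P I) : Function.Injective (Ext_R s τ q) := by
  rw [injective_iff_map_eq_zero]
  intro f hf
  funext x
  obtain ⟨A, y⟩ := x
  have h := Ext_T_inj s (fun c => Ext_ev τ (q.1 c y)) (fun A => f (A, y)) fun A' => by
    have h1 := congrFun hf (A', y * q.2)
    rw [Ext_R_apply, mul_inv_cancel_right] at h1
    exact h1
  exact h A

/-- **The lower bound for the extension module.** Let `P' = N ⋊ P`, `N = V → P → I → ZMod 2`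
(additive group, written multiplicatively), `P` acts by `(p • a) v x = a v (x * p)`. For
`a : V → P → K` put `(T a f) (A, x) = ∑ B ∈ (A ∩ s).powerset, (∏ c ∈ B, a c x) * f (A \ B, x)`, and
`ev : (I → ZMod 2) → K`, `c ↦ ∑ i, c i * τ i`. `g' v = (Pi.single v (fun x => Pi.single (ι v x) 1), g v)` for
`v ∈ s` and `(0, g v)` for `v ∉ s`. Apply `lower` with `J = Finset V × P` and
`R (a, p) f (A, x) = (T (ev a) f) (A, x * p⁻¹)`. (`T a` is injective by induction on `A`; the identity is
`T a (1 + E_v c) = T (a + single v c)`.) -/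
theorem lower_rE (G : SimpleGraph V) (n : ℕ) {P : Type} [Group P] [Fintype P] (D : PG G P)
    (s : Finset V) {I : Type} [Fintype I] [DecidableEq I] (ι : V → P → I) (τ : I → K)
    (hι : ∀ v u, (u = v ∨ G.Adj v u) → ∀ p, ι v (p * D.g u) = ι v p) :
    ∃ (P' : Type) (_ : Group P') (_ : Fintype P') (D' : PG G P'),
      Fintype.card (Finset V × P) * dz K n D' ≤
        Fintype.card P' * Module.finrank K (Zs K G n (rE D s fun v p => τ (ι v p))) := by
  refine ⟨Ext_G V P I, Ext_group V P I, Fintype.ofFinite _, Ext_D D s ι hι, ?_⟩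
  let _ : Fintype (Ext_G V P I) := Fintype.ofFinite _
  refine lower G n (Ext_D D s ι hι) _ (Ext_R s τ) (Ext_R_inj s τ) ?_
  intro q v f
  funext x
  obtain ⟨A, x⟩ := x
  have hg2 : (q * (Ext_D D s ι hι).g v).2 = q.2 * D.g v := rfl
  have hgg : D.g v * D.g v = 1 := D.sq v
  have hginv : (D.g v)⁻¹ = D.g v := inv_eq_of_mul_eq_one_right hgg
  have hx : x * D.g v * (q.2 * D.g v)⁻¹ = x * q.2⁻¹ := by
    rw [mul_inv_rev, hginv, mul_assoc x, ← mul_assoc (D.g v), hgg, one_mul]
  have hrhs := Ext_R_apply s τ q f A x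
  have hlhs : ∀ A', Ext_R s τ (q * (Ext_D D s ι hι).g v) f (A', x * D.g v) =
      Ext_T s (fun c => Ext_ev τ ((q * (Ext_D D s ι hι).g v).1 c (x * q.2⁻¹)))
        (fun A => f (A, x * q.2⁻¹)) A' := by
    intro A'
    rw [Ext_R_apply, hg2, hx]
  have hne : ∀ c, c ≠ v → Ext_ev τ ((q * (Ext_D D s ι hι).g v).1 c (x * q.2⁻¹)) =
      Ext_ev τ (q.1 c (x * q.2⁻¹)) := by
    intro c hc
    rw [Ext_mul_fst]
    change Ext_ev τ (q.1 c (x * q.2⁻¹) + if c = v ∧ v ∈ s then _ else _) = _
    rw [if_neg fun h => hc h.1, add_zero]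
  change Ext_R s τ (q * (Ext_D D s ι hι).g v) f (A, x * D.g v) +
    (if v ∈ s ∧ v ∈ A then τ (ι v x) *
      Ext_R s τ (q * (Ext_D D s ι hι).g v) f (A.erase v, x * D.g v) else 0) = Ext_R s τ q f (A, x)
  rw [hlhs A, hlhs (A.erase v), hrhs]
  by_cases hvs : v ∈ s
  · have hv : Ext_ev τ ((q * (Ext_D D s ι hι).g v).1 v (x * q.2⁻¹)) =
        Ext_ev τ (q.1 v (x * q.2⁻¹)) + τ (ι v x) := by
      rw [Ext_mul_fst]
      change Ext_ev τ (q.1 v (x * q.2⁻¹) +
        if v = v ∧ v ∈ s then Pi.single (ι v (x * q.2⁻¹ * q.2)) 1 else 0) = _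
      rw [if_pos ⟨rfl, hvs⟩, inv_mul_cancel_right, Ext_ev_single]
    by_cases hvA : v ∈ A
    · rw [if_pos ⟨hvs, hvA⟩,
        Ext_T_on s (fun c => Ext_ev τ (q.1 c (x * q.2⁻¹))) _ (τ (ι v x)) _ A v hvA hvs hne hv,
        Ext_T_off s (fun c => Ext_ev τ ((q * (Ext_D D s ι hι).g v).1 c (x * q.2⁻¹)))
          (fun c => Ext_ev τ (q.1 c (x * q.2⁻¹))) _ (A.erase v)
          (fun c hc => hne c (ne_of_mem_erase hc)), add_assoc, CharTwo.add_self_eq_zero, add_zero]
    · rw [if_neg fun h => hvA h.2, add_zero]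
      exact Ext_T_off s _ _ _ A fun c hc => hne c fun h => hvA (h ▸ hc)
  · rw [if_neg fun h => hvs h.1, add_zero]
    have hall : ∀ c, Ext_ev τ ((q * (Ext_D D s ι hι).g v).1 c (x * q.2⁻¹)) =
        Ext_ev τ (q.1 c (x * q.2⁻¹)) := by
      intro c
      rw [Ext_mul_fst]
      change Ext_ev τ (q.1 c (x * q.2⁻¹) + if c = v ∧ v ∈ s then _ else _) = _
      rw [if_neg fun h => hvs h.2, add_zero]
    exact Ext_T_off s _ _ _ A fun c _ => hall c

end Pool.Agent.H77.SW
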