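import Pool.Agent.H77.SW.Defs

/-!
# Singer without colours: generic parameters
-/

set_option autoImplicit false
set_option linter.unusedSectionVars false

open Finset

namespace Pool.Agent.H77.SW

variable {V : Type} [DecidableEq V] [Fintype V] {K : Type} [Field K]

/-- the identity has zero bits -/
private theorem Gen_b_one {G : SimpleGraph V} {P : Type} [Group P] (D : PG G P) (v : V) :
    D.b 1 v = 0 := by
  have h := D.b_mul 1 1 v
  rw [mul_one] at h
  exact left_eq_add.1 h

private theorem Gen_b_inv {G : SimpleGraph V} {P : Type} [Group P] (D : PG G P) (p : P) (v : V) :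
    D.b p⁻¹ v = - D.b p v := by
  have h := D.b_mul p⁻¹ p v
  rw [inv_mul_cancel, Gen_b_one] at h
  exact eq_neg_of_add_eq_zero_left h.symm

/-- elements of the closure of `S` have zero bits outside `S` -/
private theorem Gen_b_closure {G : SimpleGraph V} {P : Type} [Group P] (D : PG G P) (S : Set V)
    (v : V) (hv : v ∉ S) (q : P) (hq : q ∈ Subgroup.closure (D.g '' S)) : D.b q v = 0 := by
  induction hq using Subgroup.closure_induction with
  | mem x hx =>
    obtain ⟨u, hu, rfl⟩ := hx
    rw [D.b_g, if_neg]
    rintro rfl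
    exact hv hu
  | one => exact Gen_b_one D v
  | mul x y _ _ hx hy => rw [D.b_mul, hx, hy, add_zero]
  | inv x _ hx => rw [Gen_b_inv, hx, neg_zero]

/-- an element of the closure of a clique with zero bits on the clique is trivial -/
private theorem Gen_clique {G : SimpleGraph V} {P : Type} [Group P] (D : PG G P) (s : Finset V) :
    G.IsClique (s : Set V) → ∀ q ∈ Subgroup.closure (D.g '' (s : Set V)),
      (∀ v ∈ s, D.b q v = 0) → q = 1 := by
  induction s using Finset.induction_on with
  | empty =>
    intro _ q hq _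
    rw [coe_empty, Set.image_empty, Subgroup.closure_empty] at hq
    exact Subgroup.mem_bot.1 hq
  | insert v s hv ih =>
    intro hcl q hq hb
    have hcl' : G.IsClique (s : Set V) := hcl.subset (by
      rw [coe_insert]
      exact Set.subset_insert _ _)
    have hcomm : ∀ r ∈ Subgroup.closure (D.g '' (s : Set V)), D.g v * r = r * D.g v := by
      intro r hr
      induction hr using Subgroup.closure_induction with
      | mem x hx =>
        obtain ⟨u, hu, rfl⟩ := hx
        have hne : v ≠ u := by
          rintro rfl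
          exact hv (mem_coe.1 hu)
        exact D.comm v u (hcl (by rw [coe_insert]; exact Set.mem_insert _ _)
          (by rw [coe_insert]; exact Set.mem_insert_of_mem _ hu) hne)
      | one => rw [mul_one, one_mul]
      | mul x y _ _ hx hy => rw [← mul_assoc, hx, mul_assoc, hy, mul_assoc]
      | inv x _ hx =>
        rw [mul_inv_eq_iff_eq_mul, mul_assoc, hx, inv_mul_cancel_left]
    have hsq : D.g v * D.g v = 1 := D.sq v
    have hdec : ∃ r ∈ Subgroup.closure (D.g '' (s : Set V)), q = r ∨ q = r * D.g v := by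
      clear hb
      induction hq using Subgroup.closure_induction with
      | mem x hx =>
        obtain ⟨u, hu, rfl⟩ := hx
        rw [coe_insert] at hu
        rcases hu with rfl | hu
        · exact ⟨1, Subgroup.one_mem _, Or.inr (one_mul _).symm⟩
        · exact ⟨D.g u, Subgroup.subset_closure ⟨u, hu, rfl⟩, Or.inl rfl⟩
      | one => exact ⟨1, Subgroup.one_mem _, Or.inl rfl⟩
      | mul x y _ _ hx hy =>
        obtain ⟨r, hr, hx⟩ := hx
        obtain ⟨r', hr', hy⟩ := hy
        refine ⟨r * r', Subgroup.mul_mem _ hr hr', ?_⟩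
        rcases hx with rfl | rfl <;> rcases hy with rfl | rfl
        · exact Or.inl rfl
        · exact Or.inr (mul_assoc _ _ _).symm
        · right
          rw [mul_assoc, hcomm _ hr', mul_assoc]
        · left
          rw [mul_assoc, ← mul_assoc (D.g v), hcomm _ hr', mul_assoc r', hsq, mul_one]
      | inv x _ hx =>
        obtain ⟨r, hr, hx⟩ := hx
        refine ⟨r⁻¹, Subgroup.inv_mem _ hr, ?_⟩
        rcases hx with rfl | rfl
        · exact Or.inl rfl
        · right
          have hinv : (D.g v)⁻¹ = D.g v := inv_eq_of_mul_eq_one_left hsq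
          rw [mul_inv_rev, hinv, hcomm _ (Subgroup.inv_mem _ hr)]
    obtain ⟨r, hr, h⟩ := hdec
    have hbr : D.b r v = 0 := Gen_b_closure D _ v (fun h => hv (mem_coe.1 h)) r hr
    rcases h with rfl | rfl
    · exact ih hcl' _ hr fun u hu => hb u (mem_insert_of_mem hu)
    · exfalso
      have h1 := hb v (mem_insert_self _ _)
      rw [D.b_mul, hbr, D.b_g, if_pos rfl, zero_add] at h1
      exact one_ne_zero h1

/-- `Good` for finitely many sets -/
private theorem Gen_inter {G : SimpleGraph V} {P : Type} [Group P] (D : PG G P) (hD : Good D)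
    (A : V → Set V) (q : P) (s : Finset V) : s.Nonempty →
    (∀ v ∈ s, q ∈ Subgroup.closure (D.g '' A v)) →
      q ∈ Subgroup.closure (D.g '' {u | ∀ v ∈ s, u ∈ A v}) := by
  intro hs
  induction hs using Finset.Nonempty.cons_induction with
  | singleton a =>
    intro h
    have h1 := h a (mem_singleton_self _)
    refine Subgroup.closure_mono (Set.image_mono ?_) h1
    intro u hu v hv
    rw [mem_singleton] at hv
    subst hv
    exact hu
  | cons a s ha hs ih =>
    intro h
    have h1 := ih fun v hv => h v (mem_cons_of_mem hv)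
    have h2 := h a (mem_cons_self _ _)
    have h3 := hD (A a) {u | ∀ v ∈ s, u ∈ A v} (Subgroup.mem_inf.2 ⟨h2, h1⟩)
    refine Subgroup.closure_mono (Set.image_mono ?_) h3
    rintro u ⟨hu1, hu2⟩ v hv
    rcases mem_cons.1 hv with rfl | hv
    · exact hu1
    · exact hu2 v hv

/-- **Generic parameters.** `I = Σ v : V, P ⧸ Subgroup.closure (D.g '' {u | u = v ∨ G.Adj v u})`,
`ι v p = ⟨v, p⟩`, `τ i = X.x (Fintype.equivFin I i)`. If `p`, `p'` have the bits `0` on `s` and the same
cosets for all `v ∈ s` then `p⁻¹ * p'` is in the closures of all stars, hence (`Good`, the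
intersection of the stars of `v ∈ s` is `s` as there is no larger clique) in the closure of `s`, and its
bits vanish: `p = p'` (the elements of the closure of `D.g '' s` are the products of subsets,
determined by their bits). So the products of the `t v p` are pairwise different squarefree
monomials. -/
theorem exists_gen (X : GenSeq K) (G : SimpleGraph V) (k : ℕ)
    (hdim : ∀ σ : Finset V, G.IsClique (σ : Set V) → σ.card ≤ k + 1) {P : Type} [Group P]
    [Fintype P] (D : PG G P) (hD : Good D) (s : Finset V) (hs : G.IsClique (s : Set V))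
    (hcard : s.card = k + 1) :
    ∃ (I : Type) (_ : Fintype I) (_ : DecidableEq I) (ι : V → P → I) (τ : I → K),
      (∀ v u, (u = v ∨ G.Adj v u) → ∀ p, ι v (p * D.g u) = ι v p) ∧
      GenOn D s (fun v p => τ (ι v p)) := by
  classical
  obtain ⟨H, hH⟩ : ∃ H : V → Subgroup P, ∀ v, H v =
      Subgroup.closure (D.g '' {u | u = v ∨ G.Adj v u}) := ⟨_, fun _ => rfl⟩
  have hI : Fintype (Σ v : V, P ⧸ H v) := by
    have : ∀ v, Fintype (P ⧸ H v) := fun v => Fintype.ofFinite _
    infer_instance
  obtain ⟨e⟩ : Nonempty ((Σ v : V, P ⧸ H v) ≃ Fin (Fintype.card (Σ v : V, P ⧸ H v))) :=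
    ⟨Fintype.equivFin _⟩
  obtain ⟨ι, hι⟩ : ∃ ι : V → P → (Σ v : V, P ⧸ H v), ∀ v p, ι v p = ⟨v, (p : P ⧸ H v)⟩ :=
    ⟨fun v p => ⟨v, (p : P ⧸ H v)⟩, fun _ _ => rfl⟩
  refine ⟨(Σ v : V, P ⧸ H v), hI, Classical.decEq _, ι, fun i => X.x (e i).val, ?_, ?_⟩
  · intro v u hu p
    rw [hι, hι]
    congr 1
    rw [QuotientGroup.eq, mul_inv_rev, mul_assoc, inv_mul_cancel, mul_one, hH]
    exact Subgroup.inv_mem _ (Subgroup.subset_closure ⟨u, hu, rfl⟩)
  · intro c hc hsum
    -- the monomial of `p`
    obtain ⟨M, hM⟩ : ∃ M : P → Finset ℕ, ∀ p, M p = s.image fun v => (e (ι v p)).val :=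
      ⟨fun p => s.image fun v => (e (ι v p)).val, fun _ => rfl⟩
    have hinj1 : ∀ v w p q, (e (ι v p)).val = (e (ι w q)).val → v = w ∧
        p⁻¹ * q ∈ H v := by
      intro v w p q h
      have h1 : ι v p = ι w q := e.injective (Fin.val_injective h)
      rw [hι, hι] at h1
      have h2 : v = w := congrArg Sigma.fst h1
      subst h2
      refine ⟨rfl, ?_⟩
      have h3 : (p : P ⧸ H v) = (q : P ⧸ H v) := eq_of_heq (Sigma.mk.inj h1).2
      exact QuotientGroup.eq.1 h3
    have hprod : ∀ p, ∏ v ∈ s, X.x (e (ι v p)).val = ∏ i ∈ M p, X.x i := by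
      intro p
      rw [hM, prod_image]
      intro v _ w _ h
      exact (hinj1 v w p p h).1
    obtain ⟨P0, hP0⟩ : ∃ P0 : Finset P, ∀ p, p ∈ P0 ↔ ∀ v ∈ s, D.b p v = 0 :=
      ⟨univ.filter fun p => ∀ v ∈ s, D.b p v = 0, fun p => by simp⟩
    have hsne : s.Nonempty := by
      rw [← card_pos]
      omega
    have hinj : ∀ p ∈ P0, ∀ q ∈ P0, M p = M q → p = q := by
      intro p hp q hq hpq
      have h1 : ∀ v ∈ s, p⁻¹ * q ∈ Subgroup.closure (D.g '' {u | u = v ∨ G.Adj v u}) := by
        intro v hv
        have h2 : (e (ι v p)).val ∈ M q := by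
          rw [← hpq, hM]
          exact mem_image_of_mem _ hv
        rw [hM, mem_image] at h2
        obtain ⟨w, _, hw⟩ := h2
        obtain ⟨h3, h4⟩ := hinj1 v w p q hw.symm
        rw [← hH]
        exact h4
      have h2 := Gen_inter D hD (fun v => {u | u = v ∨ G.Adj v u}) (p⁻¹ * q) s hsne h1
      have h3 : p⁻¹ * q ∈ Subgroup.closure (D.g '' (s : Set V)) := by
        refine Subgroup.closure_mono (Set.image_mono ?_) h2
        intro u hu
        by_contra hus
        have hus' : u ∉ s := fun h => hus (mem_coe.2 h)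
        have hcl : G.IsClique ((insert u s : Finset V) : Set V) := by
          rw [coe_insert, SimpleGraph.isClique_insert]
          refine ⟨hs, fun v hv _ => ?_⟩
          rcases hu v (mem_coe.1 hv) with h | h
          · exact absurd (h ▸ mem_coe.1 hv) hus'
          · exact h.symm
        have h4 := hdim _ hcl
        rw [card_insert_of_notMem hus'] at h4
        omega
      have h4 := Gen_clique D s hs _ h3 (by
        intro v hv
        rw [D.b_mul, Gen_b_inv, (hP0 p).1 hp v hv, (hP0 q).1 hq v hv, neg_zero, add_zero])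
      exact inv_mul_eq_one.1 h4
    obtain ⟨c', hc'⟩ : ∃ c' : Finset ℕ → K, ∀ p ∈ P0, c' (M p) = c p := by
      refine ⟨fun S => if h : ∃ p ∈ P0, M p = S then c h.choose else 0, fun p hp => ?_⟩
      have hex : ∃ q ∈ P0, M q = M p := ⟨p, hp, rfl⟩
      show (if h : ∃ q ∈ P0, M q = M p then c h.choose else 0) = c p
      rw [dif_pos hex]
      exact congrArg c (hinj _ hex.choose_spec.1 _ hp hex.choose_spec.2)
    have hsum' : ∑ S ∈ P0.image M, (∏ i ∈ S, X.x i) * c' S ^ 2 = 0 := by
      rw [sum_image (fun p hp q hq h => hinj p hp q hq h), ← hsum]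
      have e1 : ∑ p ∈ P0, (∏ i ∈ M p, X.x i) * c' (M p) ^ 2 =
          ∑ p ∈ P0, (∏ v ∈ s, X.x (e (ι v p)).val) * c p ^ 2 := by
        refine sum_congr rfl fun p hp => ?_
        rw [hc' p hp, hprod]
      rw [e1]
      refine sum_subset (subset_univ P0) fun p _ hp => ?_
      have h1 : c p = 0 := hc p (by
        by_contra hcon
        push Not at hcon
        exact hp ((hP0 p).2 hcon))
      rw [h1, zero_pow (by norm_num), mul_zero]
    have hz := X.indep (P0.image M) c' hsum'
    funext p
    by_cases hp : p ∈ P0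
    · rw [← hc' p hp]
      exact hz _ (mem_image_of_mem _ hp)
    · refine hc p ?_
      by_contra hcon
      push Not at hcon
      exact hp ((hP0 p).2 hcon)

end Pool.Agent.H77.SW
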