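import Pool.Agent.H77.SW.Comb

/-!
# Singer without colours: the key lemma
-/

set_option autoImplicit false
set_option linter.unusedSectionVars false

open Finset

namespace Pool.Agent.H77.SW

open Pool.Agent.H85.VK

variable {V : Type} [DecidableEq V] [Fintype V] {K : Type} [Field K] [CharP K 2]

private theorem Key_inv_not {G : SimpleGraph V} {P : Type} [Group P] (D : PG G P)
    (s : Finset V) (t : V → P → K) {v : V} {f : Finset V × P → K}
    (hf : rE D s t v f = f) (A : Finset V) (p : P) (h : ¬ (v ∈ s ∧ v ∈ A)) :
    f (A, p * D.g v) = f (A, p) := by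
  have h1 := congrFun hf (A, p)
  simp only [rE, LinearMap.coe_mk, AddHom.coe_mk] at h1
  rw [if_neg h, add_zero] at h1
  exact h1

private theorem Key_inv_mem {G : SimpleGraph V} {P : Type} [Group P] (D : PG G P)
    (s : Finset V) (t : V → P → K) {v : V} {f : Finset V × P → K}
    (hf : rE D s t v f = f) (A : Finset V) (p : P) (hs : v ∈ s) (hA : v ∈ A) :
    f (A, p * D.g v) = f (A, p) + t v p * f (A.erase v, p) := by
  have h1 := congrFun hf (A, p)
  have h2 := Key_inv_not D s t hf (A.erase v) p (by simp)
  simp only [rE, LinearMap.coe_mk, AddHom.coe_mk] at h1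
  rw [if_pos ⟨hs, hA⟩, h2] at h1
  rw [← h1, add_assoc, CharTwo.add_self_eq_zero, add_zero]

/-- the pairing -/
private def Key_F {P : Type} [Fintype P] (s : Finset V) (S : Finset (Finset V))
    (f f' : Finset V × P → K) : K := ∑ A ∈ S, ∑ p, f (A, p) * f' (s \ A, p)

private theorem Key_zero {G : SimpleGraph V} {P : Type} [Group P] [Fintype P] (D : PG G P)
    (s : Finset V) (t : V → P → K) {v : V} {f f' : Finset V × P → K}
    (hf : rE D s t v f = f) (hf' : rE D s t v f' = f') (S : Finset (Finset V))
    (hS : v ∈ s → ∀ A, v ∉ A → (A ∈ S ↔ insert v A ∈ S)) : Key_F s S f f' = 0 := by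
  unfold Key_F
  rw [sum_comm]
  refine sum_involution (fun p _ => p * D.g v) ?_ ?_ ?_ ?_
  · intro p _
    rw [← sum_add_distrib]
    by_cases hv : v ∈ s
    · have hS' := hS hv
      have key : ∀ A, v ∉ A → (f (A, p) * f' (s \ A, p) + f (A, p * D.g v) * f' (s \ A, p * D.g v)) +
          (f (insert v A, p) * f' (s \ insert v A, p) +
            f (insert v A, p * D.g v) * f' (s \ insert v A, p * D.g v)) = 0 := by
        intro A hA
        have e1 : (s \ A).erase v = s \ insert v A := by
          ext w
          simp only [mem_erase, mem_sdiff, mem_insert]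
          tauto
        rw [Key_inv_not D s t hf A p (fun h => hA h.2),
          Key_inv_mem D s t hf' (s \ A) p hv (mem_sdiff.2 ⟨hv, hA⟩),
          Key_inv_mem D s t hf (insert v A) p hv (mem_insert_self _ _),
          Key_inv_not D s t hf' (s \ insert v A) p (by simp), erase_insert hA, e1]
        have h2 : (2 : K) = 0 := CharTwo.two_eq_zero
        linear_combination (f (A, p) * f' (s \ A, p) + f (insert v A, p) * f' (s \ insert v A, p) +
          f (A, p) * t v p * f' (s \ insert v A, p)) * h2
      refine sum_involution (fun A _ => if v ∈ A then A.erase v else insert v A) ?_ ?_ ?_ ?_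
      · intro A _
        by_cases hA : v ∈ A
        · have h := key (A.erase v) (notMem_erase v A)
          rw [insert_erase hA] at h
          rw [if_pos hA, add_comm]
          exact h
        · rw [if_neg hA]
          exact key A hA
      · intro A _ _ e
        by_cases hA : v ∈ A
        · rw [if_pos hA] at e
          exact notMem_erase v A (e.symm ▸ hA)
        · rw [if_neg hA] at e
          exact hA (e ▸ mem_insert_self v A)
      · intro A hAS
        by_cases hA : v ∈ A
        · rw [if_pos hA, hS' _ (notMem_erase v A), insert_erase hA]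
          exact hAS
        · rw [if_neg hA, ← hS' _ hA]
          exact hAS
      · intro A _
        by_cases hA : v ∈ A
        · simp only [if_pos hA, notMem_erase, if_false]
          exact insert_erase hA
        · simp only [if_neg hA, mem_insert_self, if_true]
          exact erase_insert hA
    · refine sum_eq_zero fun A _ => ?_
      rw [Key_inv_not D s t hf A p (fun h => hv h.1),
        Key_inv_not D s t hf' (s \ A) p (fun h => hv h.1), CharTwo.add_self_eq_zero]
  · intro p _ _ e
    have h := D.b_mul p (D.g v) v
    rw [e, D.b_g, if_pos rfl] at h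
    simp at h
  · intro p _
    exact mem_univ _
  · intro p _
    simp only [mul_assoc, D.sq, mul_one]

private theorem Key_swap {P : Type} [Fintype P] (s : Finset V) (pr : Finset V → Prop)
    [DecidablePred pr] (f f' : Finset V × P → K) :
    Key_F s (s.powerset.filter pr) f f' =
      Key_F s (s.powerset.filter fun A => pr (s \ A)) f' f := by
  unfold Key_F
  refine sum_nbij' (fun A => s \ A) (fun A => s \ A) ?_ ?_ ?_ ?_ ?_
  · intro A hA
    rw [mem_filter, mem_powerset] at hA ⊢
    refine ⟨sdiff_subset, ?_⟩
    rw [Finset.sdiff_sdiff_eq_self hA.1]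
    exact hA.2
  · intro A hA
    rw [mem_filter, mem_powerset] at hA ⊢
    exact ⟨sdiff_subset, hA.2⟩
  · intro A hA
    rw [mem_filter, mem_powerset] at hA
    exact Finset.sdiff_sdiff_eq_self hA.1
  · intro A hA
    rw [mem_filter, mem_powerset] at hA
    exact Finset.sdiff_sdiff_eq_self hA.1
  · intro A hA
    rw [mem_filter, mem_powerset] at hA
    refine sum_congr rfl fun p _ => ?_
    rw [Finset.sdiff_sdiff_eq_self hA.1, mul_comm]

private theorem Key_union {P : Type} [Fintype P] (s : Finset V) (S T : Finset (Finset V))
    (h : Disjoint S T) (f f' : Finset V × P → K) :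
    Key_F s (S ∪ T) f f' = Key_F s S f f' + Key_F s T f f' := by
  unfold Key_F
  exact sum_union h

private theorem Key_lin1 {P : Type} [Fintype P] (s : Finset V) (S : Finset (Finset V))
    (B : Finset V) (z : V → Finset V × P → K) (f' : Finset V × P → K)
    (h : ∑ v ∈ B, z v = 0) : ∑ v ∈ B, Key_F s S (z v) f' = 0 := by
  unfold Key_F
  rw [sum_comm]
  refine sum_eq_zero fun A _ => ?_
  rw [sum_comm]
  refine sum_eq_zero fun p _ => ?_
  rw [← sum_mul]
  have e := congrFun h (A, p)
  rw [Finset.sum_apply] at e
  rw [e, Pi.zero_apply, zero_mul]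

private theorem Key_lin2 {P : Type} [Fintype P] (s : Finset V) (S : Finset (Finset V))
    (B : Finset V) (z : V → Finset V × P → K) (f : Finset V × P → K)
    (h : ∑ v ∈ B, z v = 0) : ∑ v ∈ B, Key_F s S f (z v) = 0 := by
  unfold Key_F
  rw [sum_comm]
  refine sum_eq_zero fun A _ => ?_
  rw [sum_comm]
  refine sum_eq_zero fun p _ => ?_
  rw [← mul_sum]
  have e := congrFun h (s \ A, p)
  rw [Finset.sum_apply] at e
  rw [e, Pi.zero_apply, mul_zero]

/-- the numbering -/
private theorem Key_num (s : Finset V) (k : ℕ) (hcard : s.card = k + 1) :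
    ∃ ν : V → ℕ, Function.Injective ν ∧ ∀ v, ν v < k + 1 ↔ v ∈ s := by
  classical
  refine ⟨fun v => if h : v ∈ s then (s.equivFin ⟨v, h⟩ : ℕ) else k + 1 + Fintype.equivFin V v,
    ?_, ?_⟩
  · intro v w hvw
    have hb : ∀ (v : V) (h : v ∈ s), (s.equivFin ⟨v, h⟩ : ℕ) < k + 1 := by
      intro v h
      have h1 := (s.equivFin ⟨v, h⟩).2
      omega
    by_cases hv : v ∈ s
    · by_cases hw : w ∈ s
      · simp only [dif_pos hv, dif_pos hw] at hvw
        have h1 := s.equivFin.injective (Fin.ext hvw)
        exact congrArg Subtype.val h1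
      · simp only [dif_pos hv, dif_neg hw] at hvw
        have h1 := hb v hv
        omega
    · by_cases hw : w ∈ s
      · simp only [dif_neg hv, dif_pos hw] at hvw
        have h1 := hb w hw
        omega
      · simp only [dif_neg hv, dif_neg hw] at hvw
        exact (Fintype.equivFin V).injective (Fin.ext (by omega))
  · intro v
    by_cases hv : v ∈ s
    · have h1 := (s.equivFin ⟨v, hv⟩).2
      show (if h : v ∈ s then (s.equivFin ⟨v, h⟩ : ℕ) else k + 1 + Fintype.equivFin V v) < k + 1 ↔
        v ∈ s
      rw [dif_pos hv]
      exact ⟨fun _ => hv, fun _ => by omega⟩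
    · show (if h : v ∈ s then (s.equivFin ⟨v, h⟩ : ℕ) else k + 1 + Fintype.equivFin V v) < k + 1 ↔
        v ∈ s
      rw [dif_neg hv]
      exact ⟨fun h => by omega, fun h => absurd h hv⟩

/-- the moments of an invariant function -/
private theorem Key_moment {G : SimpleGraph V} {P : Type} [Group P] [Fintype P] (D : PG G P)
    (s : Finset V) (hs : G.IsClique (s : Set V)) (t : V → P → K) (ht : StarInv D t)
    (f : Finset V × P → K) (hf : ∀ v ∈ s, rE D s t v f = f) (T : Finset V) (hT : T ⊆ s) :
    ∑ p ∈ univ.filter (fun p => ∀ w ∈ T, D.b p w = 0),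
      (∏ w ∈ T, t w p) * f (s \ T, p) * f (∅, p) = ∑ p, f (s, p) * f (∅, p) := by
  classical
  induction T using Finset.induction_on with
  | empty => simp
  | insert v T hv ih =>
    have hvs : v ∈ s := hT (mem_insert_self _ _)
    have hTs : T ⊆ s := fun w hw => hT (mem_insert_of_mem hw)
    rw [← ih hTs, ← sum_filter_add_sum_filter_not (univ.filter fun p => ∀ w ∈ T, D.b p w = 0)
      (fun p => D.b p v = 0)]
    have e2 : ∑ p ∈ (univ.filter (fun p => ∀ w ∈ T, D.b p w = 0)).filter
          (fun p => ¬ D.b p v = 0), (∏ w ∈ T, t w p) * f (s \ T, p) * f (∅, p) =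
        ∑ p ∈ (univ.filter (fun p => ∀ w ∈ T, D.b p w = 0)).filter
          (fun p => D.b p v = 0), (∏ w ∈ T, t w p) *
            (f (s \ T, p) + t v p * f (s \ insert v T, p)) * f (∅, p) := by
      have hz : ∀ x : ZMod 2, x ≠ 0 → x + 1 = 0 := by decide
      have hz' : ∀ x : ZMod 2, x = 0 → ¬ x + 1 = 0 := by decide
      have hg : ∀ p w, w ∈ T → D.b (p * D.g v) w = D.b p w := by
        intro p w hw
        rw [D.b_mul, D.b_g, if_neg (fun h : v = w => hv (h ▸ hw)), add_zero]
      refine sum_nbij' (fun p => p * D.g v) (fun p => p * D.g v) ?_ ?_ ?_ ?_ ?_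
      · intro p hp
        simp only [mem_filter, mem_univ, true_and] at hp ⊢
        refine ⟨fun w hw => by rw [hg p w hw]; exact hp.1 w hw, ?_⟩
        rw [D.b_mul, D.b_g, if_pos rfl]
        exact hz _ hp.2
      · intro p hp
        simp only [mem_filter, mem_univ, true_and] at hp ⊢
        refine ⟨fun w hw => by rw [hg p w hw]; exact hp.1 w hw, ?_⟩
        rw [D.b_mul, D.b_g, if_pos rfl]
        exact hz' _ hp.2
      · intro p _
        simp only [mul_assoc, D.sq, mul_one]
      · intro p _
        simp only [mul_assoc, D.sq, mul_one]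
      · intro p _
        have e1 : (s \ T).erase v = s \ insert v T := by
          ext w
          simp only [mem_erase, mem_sdiff, mem_insert]
          tauto
        have e3 : ∏ w ∈ T, t w (p * D.g v) = ∏ w ∈ T, t w p := by
          refine prod_congr rfl fun w hw => ht w v (Or.inr ?_) p
          exact hs (hTs hw) hvs (fun h => hv (h ▸ hw))
        have e4 := Key_inv_mem D s t (hf v hvs) (s \ T) p hvs (mem_sdiff.2 ⟨hvs, hv⟩)
        have e5 := Key_inv_not D s t (hf v hvs) ∅ p (fun h => notMem_empty v h.2)
        have e6 := ht v v (Or.inl rfl) p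
        have e7 := Key_inv_not D s t (hf v hvs) ((s \ T).erase v) p (by simp)
        rw [← e1, e3, e5, e4, e6, e7, add_assoc, CharTwo.add_self_eq_zero, add_zero]
    rw [e2, ← sum_add_distrib, filter_filter]
    refine sum_congr ?_ fun p _ => ?_
    · ext p
      simp only [mem_filter, mem_univ, true_and, mem_insert, forall_eq_or_imp]
      tauto
    · rw [prod_insert hv]
      have h2 : (2 : K) = 0 := CharTwo.two_eq_zero
      linear_combination (-(∏ w ∈ T, t w p) * f (s \ T, p) * f (∅, p)) * h2

/-- **The key lemma.** Choose `ν` injective with `ν v < k + 1 ↔ v ∈ s`, put `ρ_j = {v | ν v < j}` and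
apply `comb` to `Q j σ τ = ∑ A ∈ s.powerset with ρ_j ∩ s ⊆ A, ∑ p, z σ (A, p) * z τ (s \ A, p)`. Then
`0 = Q (k + 1) s s = ∑ p, z s (s, p) * z s (∅, p)`, which is `∑ p with b p v = 0 (v ∈ s)` of
`(∏ v ∈ s, t v p) * z s (∅, p) ^ 2` (note 3772, L5); `hgen` and the invariance of `z s (∅, ·)`. -/
theorem key (G : SimpleGraph V) (k : ℕ) (hvk : VanKampenZero G k) {P : Type} [Group P]
    [Fintype P] (D : PG G P) (s : Finset V) (hs : G.IsClique (s : Set V)) (hcard : s.card = k + 1)
    (t : V → P → K) (ht : StarInv D t) (hgen : GenOn D s t) :
    ∀ z ∈ Zs K G (k + 1) (rE D s t), ∀ p, z s (∅, p) = 0 := by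
  classical
  intro z hz
  obtain ⟨hz1, hz2, hz3⟩ := hz
  obtain ⟨ν, hν, hνs⟩ := Key_num s k hcard
  have hQ : Key_F s (s.powerset.filter fun A => ∀ v, ν v < k + 1 → v ∈ A) (z s) (z s) = 0 := by
    refine comb G k hvk hν s hνs hcard
      (fun j σ τ => Key_F s (s.powerset.filter fun A => ∀ v, ν v < j → v ∈ A) (z σ) (z τ))
      ?_ ?_ ?_ ?_ ?_ ?_
    · intro j σ τ h
      constructor
      · refine hz1 σ fun h0 => h ?_
        simp only [Key_F, h0, Pi.zero_apply, zero_mul, sum_const_zero]
      · refine hz1 τ fun h0 => h ?_
        simp only [Key_F, h0, Pi.zero_apply, mul_zero, sum_const_zero]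
    · intro j κ τ
      exact Key_lin1 s _ _ (fun v => z (insert v κ)) _ (hz3 κ)
    · intro j σ κ
      exact Key_lin2 s _ _ (fun v => z (insert v κ)) _ (hz3 κ)
    · intro j σ τ h v hvσ hvτ
      by_contra hj
      refine h (Key_zero D s t (hz2 σ v hvσ) (hz2 τ v hvτ) _ ?_)
      intro hvs A hA
      simp only [mem_filter, mem_powerset, insert_subset_iff, hvs, true_and, mem_insert]
      refine and_congr_right fun _ => forall_congr' fun w => ?_
      refine imp_congr_right fun hw => ?_
      have hne : w ≠ v := fun e => hj (e ▸ hw)
      simp only [hne, false_or]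
    · intro j hj σ τ hστ
      -- the vertex with the number `j`
      obtain ⟨u, hus, huj⟩ : ∃ u ∈ s, ν u = j := by
        have himg : s.image ν = range (k + 1) := by
          refine eq_of_subset_of_card_le ?_ ?_
          · intro x hx
            obtain ⟨v, hv, rfl⟩ := mem_image.1 hx
            exact mem_range.2 ((hνs v).2 hv)
          · rw [card_image_of_injective _ hν, hcard, card_range]
        have hmem : j ∈ s.image ν := by
          rw [himg]
          exact mem_range.2 (by omega)
        obtain ⟨u, hu, e⟩ := mem_image.1 hmem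
        exact ⟨u, hu, e⟩
      set R : Finset V := univ.filter fun v => ν v < j with hR
      have hRs : ∀ v ∈ R, v ∈ s := by
        intro v hv
        rw [hR, mem_filter] at hv
        exact (hνs v).1 (by omega)
      have huR : u ∉ R := by
        rw [hR, mem_filter]
        intro h
        omega
      have hW : ∀ X : Finset V, X ⊆ R →
          Key_F s (s.powerset.filter fun A => A ∩ R = X ∧ u ∉ A) (z σ) (z τ) =
            Key_F s (s.powerset.filter fun A => A ∩ R = ∅ ∧ u ∉ A) (z σ) (z τ) := by
        intro X
        induction X using Finset.induction_on with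
        | empty => intro _; rfl
        | insert x X hx ih =>
          intro hX
          have hxR : x ∈ R := hX (mem_insert_self _ _)
          have hXR : X ⊆ R := fun w hw => hX (mem_insert_of_mem hw)
          rw [← ih hXR]
          have hdis : Disjoint (s.powerset.filter fun A => A ∩ R = insert x X ∧ u ∉ A)
              (s.powerset.filter fun A => A ∩ R = X ∧ u ∉ A) := by
            rw [Finset.disjoint_left]
            intro A h1 h2
            rw [mem_filter] at h1 h2
            exact hx (by rw [← h2.2.1, h1.2.1]; exact mem_insert_self _ _)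
          have h0 := Key_union s _ _ hdis (z σ) (z τ)
          have hxj : ν x < j := by
            rw [hR, mem_filter] at hxR
            exact hxR.2
          rw [Key_zero D s t (hz2 σ x (hστ x hxj).1) (hz2 τ x (hστ x hxj).2)] at h0
          · exact (CharTwo.add_eq_zero.1 h0.symm)
          · intro hxs A hA
            have hux : u ≠ x := fun e => huR (e ▸ hxR)
            have h1 : A ∩ R ≠ insert x X := by
              intro e
              have : x ∈ A ∩ R := e ▸ mem_insert_self _ _
              exact hA (mem_inter.1 this).1
            have h2 : insert x A ∩ R = insert x (A ∩ R) := by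
              rw [insert_inter_of_mem hxR]
            have h3 : insert x A ∩ R ≠ X := by
              intro e
              rw [h2] at e
              exact hx (e ▸ mem_insert_self _ _)
            have h4 : insert x A ∩ R = insert x X ↔ A ∩ R = X := by
              rw [h2]
              constructor
              · intro e
                have hxA : x ∉ A ∩ R := fun h => hA (mem_inter.1 h).1
                rw [← erase_insert hxA, e, erase_insert hx]
              · intro e
                rw [e]
            simp only [mem_union, mem_filter, mem_powerset, insert_subset_iff, hxs, true_and, h1,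
              h3, h4, false_and, and_false, false_or, or_false, mem_insert, hux]
      have hsplit : (s.powerset.filter fun A => ∀ v, ν v < j → v ∈ A) =
          (s.powerset.filter fun A => ∀ v, ν v < j + 1 → v ∈ A) ∪
            s.powerset.filter fun A => A ∩ R = R ∧ u ∉ A := by
        ext A
        simp only [mem_union, mem_filter, mem_powerset, ← and_or_left]
        refine and_congr_right fun _ => ?_
        have hRA : A ∩ R = R ↔ ∀ v, ν v < j → v ∈ A := by
          rw [inter_eq_right, hR]
          constructor
          · intro h v hv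
            exact h (mem_filter.2 ⟨mem_univ _, hv⟩)
          · intro h v hv
            exact h v (mem_filter.1 hv).2
        rw [hRA]
        constructor
        · intro h
          by_cases hu : u ∈ A
          · left
            intro v hv
            by_cases hvj : ν v < j
            · exact h v hvj
            · have e : v = u := hν (by omega)
              rw [e]
              exact hu
          · exact Or.inr ⟨h, hu⟩
        · rintro (h | h)
          · exact fun v hv => h v (by omega)
          · exact h.1
      have hdis : Disjoint (s.powerset.filter fun A => ∀ v, ν v < j + 1 → v ∈ A)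
          (s.powerset.filter fun A => A ∩ R = R ∧ u ∉ A) := by
        rw [Finset.disjoint_left]
        intro A h1 h2
        rw [mem_filter] at h1 h2
        exact h2.2.2 (h1.2 u (by omega))
      show Key_F s (s.powerset.filter fun A => ∀ v, ν v < j → v ∈ A) (z σ) (z τ) =
        Key_F s (s.powerset.filter fun A => ∀ v, ν v < j + 1 → v ∈ A) (z σ) (z τ) +
          Key_F s (s.powerset.filter fun A => ∀ v, ν v < j + 1 → v ∈ A) (z τ) (z σ)
      rw [hsplit, Key_union s _ _ hdis, hW R (Subset.refl _),
        Key_swap s (fun A => ∀ v, ν v < j + 1 → v ∈ A) (z τ) (z σ)]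
      congr 2
      refine filter_congr fun A hA => ?_
      rw [← disjoint_iff_inter_eq_empty, Finset.disjoint_left]
      constructor
      · rintro ⟨h1, h2⟩ v hv
        refine mem_sdiff.2 ⟨(hνs v).1 (by omega), ?_⟩
        by_cases hvj : ν v < j
        · intro hvA
          exact h1 hvA (mem_filter.2 ⟨mem_univ _, hvj⟩)
        · have e : v = u := hν (by omega)
          rw [e]
          exact h2
      · intro h
        refine ⟨fun v hvA hvR => ?_, (mem_sdiff.1 (h u (by omega))).2⟩
        have hvj := (mem_filter.1 hvR).2
        exact (mem_sdiff.1 (h v (by omega))).2 hvA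
    · intro σ τ
      show Key_F s (s.powerset.filter fun A => ∀ v, ν v < 0 → v ∈ A) (z σ) (z τ) =
        Key_F s (s.powerset.filter fun A => ∀ v, ν v < 0 → v ∈ A) (z τ) (z σ)
      rw [Key_swap s (fun A => ∀ v, ν v < 0 → v ∈ A) (z σ) (z τ)]
      congr 1
      refine filter_congr fun A hA => ?_
      simp
  have hS : (s.powerset.filter fun A => ∀ v, ν v < k + 1 → v ∈ A) = {s} := by
    ext A
    simp only [mem_filter, mem_powerset, mem_singleton]
    constructor
    · rintro ⟨h1, h2⟩
      exact Subset.antisymm h1 fun v hv => h2 v ((hνs v).2 hv)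
    · rintro rfl
      exact ⟨Subset.refl _, fun v hv => (hνs v).1 hv⟩
  rw [hS] at hQ
  unfold Key_F at hQ
  rw [sum_singleton, Finset.sdiff_self] at hQ
  have hf : ∀ v ∈ s, rE D s t v (z s) = z s := hz2 s
  have hM := Key_moment D s hs t ht (z s) hf s (Subset.refl _)
  rw [hQ, Finset.sdiff_self] at hM
  have hc := hgen (fun p => if ∀ w ∈ s, D.b p w = 0 then z s (∅, p) else 0) ?_ ?_
  · have hall : ∀ n : ℕ, ∀ p, (s.filter fun v => D.b p v ≠ 0).card = n → z s (∅, p) = 0 := by
      intro n
      induction n with
      | zero =>
        intro p hp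
        have hp' : ∀ w ∈ s, D.b p w = 0 := by
          intro w hw
          by_contra h
          rw [card_eq_zero] at hp
          exact notMem_empty w (hp ▸ mem_filter.2 ⟨hw, h⟩)
        have h1 := congrFun hc p
        simp only [if_pos hp', Pi.zero_apply] at h1
        exact h1
      | succ n ih =>
        intro p hp
        have hne : (s.filter fun v => D.b p v ≠ 0).Nonempty := by
          rw [← card_pos]
          omega
        obtain ⟨v, hv⟩ := hne
        have hv' := mem_filter.1 hv
        have e5 := Key_inv_not D s t (hf v hv'.1) ∅ p (fun h => notMem_empty v h.2)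
        rw [← e5]
        refine ih (p * D.g v) ?_
        have hz : ∀ x : ZMod 2, x ≠ 0 → x + 1 = 0 := by decide
        have he : (s.filter fun w => D.b (p * D.g v) w ≠ 0) =
            (s.filter fun w => D.b p w ≠ 0).erase v := by
          ext w
          simp only [mem_filter, mem_erase]
          by_cases hw : w = v
          · subst hw
            rw [D.b_mul, D.b_g, if_pos rfl, hz _ hv'.2]
            simp
          · rw [D.b_mul, D.b_g, if_neg (fun h => hw h.symm), add_zero]
            simp [hw]
        rw [he, card_erase_of_mem hv, hp]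
        rfl
    exact fun p => hall _ p rfl
  · rintro p ⟨v, hv, hb⟩
    rw [if_neg]
    intro h
    exact hb (h v hv)
  · refine Eq.trans ?_ hM
    rw [sum_filter]
    refine sum_congr rfl fun p _ => ?_
    by_cases hp : ∀ w ∈ s, D.b p w = 0
    · rw [if_pos hp, if_pos hp]
      ring
    · rw [if_neg hp, if_neg hp]
      ring

end Pool.Agent.H77.SW
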