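import Pool.Agent.H77.SW.Cover
import Pool.Agent.H77.SW.Ext
import Pool.Agent.H77.SW.Filt
import Pool.Agent.H77.SW.Key
import Pool.Agent.H77.SW.Gen

/-!
# Singer without colours: the dimension count
-/

set_option autoImplicit false
set_option linter.unusedSectionVars false

open Finset

namespace Pool.Agent.H77.SW

open Pool.Agent.H85.VK

/-- Linear maps with trivial common kernel. -/
private theorem count_inj {K Z E : Type} [Field K] [AddCommGroup Z] [Module K Z] [Module.Finite K Z]
    [AddCommGroup E] [Module K E] [Module.Finite K E] {ι : Type} [DecidableEq ι] (F : Finset ι)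
    (f : ι → Z →ₗ[K] E) : Module.finrank K Z ≤
      Module.finrank K (⨅ i ∈ F, LinearMap.ker (f i) : Submodule K Z) +
        ∑ i ∈ F, (Module.finrank K Z - Module.finrank K (LinearMap.ker (f i))) := by
  induction F using Finset.induction_on with
  | empty =>
    have h0 : (⨅ i ∈ (∅ : Finset ι), LinearMap.ker (f i)) = (⊤ : Submodule K Z) := by simp
    rw [h0, finrank_top]
    simp
  | insert i F hi ih =>
    rw [sum_insert hi, Finset.iInf_insert]
    have h1 := Submodule.finrank_sup_add_finrank_inf_eq (LinearMap.ker (f i))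
      (⨅ j ∈ F, LinearMap.ker (f j))
    have h2 : Module.finrank K
        ((LinearMap.ker (f i)) ⊔ (⨅ j ∈ F, LinearMap.ker (f j)) : Submodule K Z) ≤
        Module.finrank K Z := Submodule.finrank_le _
    omega

variable {V : Type} [DecidableEq V] [Fintype V] {K : Type} [Field K] [CharP K 2]

/-- the sum over the facets -/
private theorem count_facets (G : SimpleGraph V) (n : ℕ) {P : Type} [Group P] [Fintype P]
    (D : PG G P) (c : ℕ) (h : ∀ s : Finset V, G.IsClique (s : Set V) → s.card = n →
      dz K n D ≤ Module.finrank K (Z0 K n D s) + c) : dz K n D ≤ 2 ^ Fintype.card V * c := by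
  classical
  let Z := Zs K G n (rP K D)
  let f : Finset V → Z →ₗ[K] (P → K) := fun σ =>
    (LinearMap.proj (R := K) (φ := fun _ : Finset V => P → K) σ).comp Z.subtype
  have h1 := count_inj (K := K) (univ : Finset (Finset V)) f
  have h2 : (⨅ i ∈ (univ : Finset (Finset V)), LinearMap.ker (f i) : Submodule K Z) = ⊥ := by
    rw [eq_bot_iff]
    intro z hz
    rw [Submodule.mem_bot]
    apply Subtype.ext
    funext σ
    have h3 := (Submodule.mem_iInf _).1 ((Submodule.mem_iInf _).1 hz σ) (mem_univ σ)
    exact h3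
  rw [h2, finrank_bot, zero_add] at h1
  refine h1.trans ?_
  have h4 : ∀ σ ∈ (univ : Finset (Finset V)),
      Module.finrank K Z - Module.finrank K (LinearMap.ker (f σ)) ≤ c := by
    intro σ _
    have h5 : Module.finrank K (LinearMap.ker (f σ)) = Module.finrank K (Z0 K n D σ) := by
      have e : (LinearMap.ker (f σ)).map Z.subtype = Z0 K n D σ := by
        ext z
        constructor
        · rintro ⟨w, hw, rfl⟩
          exact ⟨w.2, hw⟩
        · rintro ⟨hz1, hz2⟩
          exact ⟨⟨z, hz1⟩, hz2, rfl⟩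
      rw [← e]
      exact (Submodule.equivMapOfInjective Z.subtype Z.injective_subtype _).finrank_eq
    by_cases hσ : G.IsClique (σ : Set V) ∧ σ.card = n
    · have h6 := h σ hσ.1 hσ.2
      have h7 : Module.finrank K Z = dz K n D := rfl
      omega
    · have h8 : Z0 K n D σ = Zs K G n (rP K D) := by
        refine le_antisymm inf_le_left fun z hz => ⟨hz, ?_⟩
        by_contra hne
        exact hσ (hz.1 σ hne)
      rw [h5, h8]
      have h7 : Module.finrank K Z = Module.finrank K (Zs K G n (rP K D)) := rfl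
      omega
  refine (sum_le_card_nsmul _ _ _ h4).trans ?_
  rw [smul_eq_mul, Finset.card_univ, Fintype.card_finset]

/-- the cube -/
def cubePG (G : SimpleGraph V) : PG G (Multiplicative (V → ZMod 2)) where
  g v := Multiplicative.ofAdd (Pi.single v 1)
  sq v := by
    rw [← ofAdd_add, ← Pi.single_add]
    have h : (1 : ZMod 2) + 1 = 0 := by decide
    rw [h, Pi.single_zero]
    rfl
  comm u v _ := mul_comm _ _
  b p v := Multiplicative.toAdd p v
  b_mul p q v := rfl
  b_g u v := by
    show (Pi.single u 1 : V → ZMod 2) v = _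
    rw [Pi.single_apply]
    simp only [eq_comm]
  two := by
    intro p
    refine ⟨1, ?_⟩
    rw [pow_one, pow_two, ← toAdd_eq_zero]
    funext v
    show Multiplicative.toAdd p v + Multiplicative.toAdd p v = 0
    exact zmod2_add_self _

/-- **The dimension count.** -/
theorem small (X : GenSeq K) (G : SimpleGraph V) (k : ℕ)
    (hdim : ∀ σ : Finset V, G.IsClique (σ : Set V) → σ.card ≤ k + 1) (hvk : VanKampenZero G k)
    (ε : ℝ) (hε : 0 < ε) : ∃ (P : Type) (_ : Group P) (_ : Fintype P) (D : PG G P),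
      (dz K (k + 1) D : ℝ) ≤ ε * Fintype.card P := by
  classical
  by_contra hcon
  push Not at hcon
  let S : Set ℝ := {x | ∃ (P : Type) (_ : Group P) (_ : Fintype P) (D : PG G P),
    x = dz K (k + 1) D / Fintype.card P}
  have hne : S.Nonempty := ⟨_, _, inferInstance, inferInstance, cubePG G, rfl⟩
  have hcard : ∀ (P : Type) [Group P] [Fintype P], (0 : ℝ) < Fintype.card P := by
    intro P _ _
    exact_mod_cast Fintype.card_pos
  have hlow : ∀ x ∈ S, ε ≤ x := by
    rintro x ⟨P, grp, fin, D, rfl⟩
    have h1 := hcon P grp fin D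
    rw [le_div_iff₀ (hcard P)]
    exact h1.le
  have hbdd : BddBelow S := ⟨ε, hlow⟩
  set z := sInf S with hz
  have hzε : ε ≤ z := le_csInf hne hlow
  have hz0 : 0 < z := hε.trans_le hzε
  set M : ℝ := 2 ^ Fintype.card V with hM
  have hM0 : 0 < M := by positivity
  obtain ⟨x, ⟨P₀, grp₀, fin₀, D₀, rfl⟩, hx⟩ :=
    exists_lt_of_csInf_lt hne (show sInf S < z + z / (M * M) by
      have : 0 < z / (M * M) := by positivity
      linarith)
  obtain ⟨P, grp, fin, D, hgood, hD⟩ := exists_good (K := K) G (k + 1) D₀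
  set m : ℝ := (Fintype.card P : ℝ) with hm
  have hm0 : 0 < m := hcard P
  set d : ℝ := (dz K (k + 1) D : ℝ) with hd
  have h1 : d < (z + z / (M * M)) * m := by
    have h2 : (Fintype.card P₀ : ℝ) * d ≤ m * dz K (k + 1) D₀ := by
      rw [hd, hm]
      exact_mod_cast hD
    have h3 : (dz K (k + 1) D₀ : ℝ) < (z + z / (M * M)) * Fintype.card P₀ := by
      rwa [div_lt_iff₀ (hcard P₀)] at hx
    have h4 : (Fintype.card P₀ : ℝ) * d < Fintype.card P₀ * ((z + z / (M * M)) * m) := by
      refine h2.trans_lt ?_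
      have h5 := mul_lt_mul_of_pos_left h3 hm0
      linarith
    exact lt_of_mul_lt_mul_left h4 (hcard P₀).le
  have h2 : z * m ≤ d := by
    have h3 : z ≤ d / m := csInf_le hbdd ⟨P, grp, fin, D, rfl⟩
    rwa [le_div_iff₀ hm0] at h3
  -- the facets
  have hfac : ∀ s : Finset V, G.IsClique (s : Set V) → s.card = k + 1 →
      d ≤ Module.finrank K (Z0 K (k + 1) D s) + M * (d - z * m) := by
    intro s hs hsc
    obtain ⟨I, _, _, ι, τ, hι, hgen⟩ := exists_gen X G k hdim D hgood s hs hsc
    obtain ⟨P', grp', fin', D', h3⟩ := lower_rE (K := K) G (k + 1) D s ι τ hι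
    have h4 := upper_rE G (k + 1) D s (fun v p => τ (ι v p)) s
      (key G k hvk D s hs hsc _ (fun v u hvu p => by rw [hι v u hvu p]) hgen)
    have h5 : z ≤ dz K (k + 1) D' / Fintype.card P' :=
      csInf_le hbdd ⟨P', grp', fin', D', rfl⟩
    rw [le_div_iff₀ (hcard P')] at h5
    have h6 : (Fintype.card (Finset V × P) : ℝ) * dz K (k + 1) D' ≤ Fintype.card P' *
        Module.finrank K (Zs K G (k + 1) (rE D s fun v p => τ (ι v p))) := by exact_mod_cast h3
    have h7 : (Fintype.card (Finset V × P) : ℝ) = M * m := by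
      rw [Fintype.card_prod, Fintype.card_finset]
      push_cast
      rfl
    rw [h7] at h6
    have h8 : M * m * z ≤
        Module.finrank K (Zs K G (k + 1) (rE D s fun v p => τ (ι v p))) := by
      have h9 : (Fintype.card P' : ℝ) * (M * m * z) ≤ Fintype.card P' *
          Module.finrank K (Zs K G (k + 1) (rE D s fun v p => τ (ι v p))) := by
        refine le_trans ?_ h6
        have h10 := mul_le_mul_of_nonneg_left h5 (mul_nonneg hM0.le hm0.le)
        linarith
      exact le_of_mul_le_mul_left h9 (hcard P')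
    have h9 : (Module.finrank K (Zs K G (k + 1) (rE D s fun v p => τ (ι v p))) : ℝ) ≤
        Module.finrank K (Z0 K (k + 1) D s) + (M - 1) * d := by
      have h10 : ((2 ^ Fintype.card V - 1 : ℕ) : ℝ) = M - 1 := by
        rw [Nat.cast_sub Nat.one_le_two_pow]
        push_cast
        rfl
      rw [← h10, hd]
      exact_mod_cast h4
    linarith
  have hc0 : 0 ≤ M * (d - z * m) := mul_nonneg hM0.le (by linarith)
  have h3 := count_facets (K := K) G (k + 1) D ⌊M * (d - z * m)⌋₊ (by
    intro s hs hsc
    have h4 := hfac s hs hsc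
    have h5 : ((dz K (k + 1) D : ℤ) : ℝ) - ((Module.finrank K (Z0 K (k + 1) D s) : ℤ) : ℝ) ≤
        M * (d - z * m) := by
      push_cast
      linarith
    have h6 : (dz K (k + 1) D : ℤ) - Module.finrank K (Z0 K (k + 1) D s) ≤
        ⌊M * (d - z * m)⌋ := by
      rw [Int.le_floor]
      push_cast at h5 ⊢
      exact h5
    have h7 : (⌊M * (d - z * m)⌋₊ : ℤ) = ⌊M * (d - z * m)⌋ := Int.natCast_floor_eq_floor hc0
    omega)
  have h4 : d ≤ M * ⌊M * (d - z * m)⌋₊ := by
    have h5 : ((dz K (k + 1) D : ℕ) : ℝ) ≤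
        ((2 ^ Fintype.card V * ⌊M * (d - z * m)⌋₊ : ℕ) : ℝ) := Nat.cast_le.2 h3
    rw [Nat.cast_mul, Nat.cast_pow, Nat.cast_ofNat] at h5
    exact h5
  have h5 : (⌊M * (d - z * m)⌋₊ : ℝ) ≤ M * (d - z * m) := Nat.floor_le hc0
  have h6 : d ≤ M * (M * (d - z * m)) := h4.trans (mul_le_mul_of_nonneg_left h5 hM0.le)
  have h7 : d - z * m < z / (M * M) * m := by linarith
  have h8 : M * (M * (d - z * m)) < M * (M * (z / (M * M) * m)) :=
    mul_lt_mul_of_pos_left (mul_lt_mul_of_pos_left h7 hM0) hM0
  have h9 : M * (M * (z / (M * M) * m)) = z * m := by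
    field_simp
  linarith

end Pool.Agent.H77.SW
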