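import Pool.Agent.H77.SW.Defs
import Pool.Agent.H85.VK.Final

/-!
# Singer without colours: the combinatorial core
-/

set_option autoImplicit false
set_option linter.unusedSectionVars false

open Finset

namespace Pool.Agent.H77.SW

open Pool.Agent.H85.VK

variable {V : Type} [DecidableEq V] [Fintype V] {K : Type} [Field K] [CharP K 2]


/-! ### Two copies of the vertices -/

/-- the numbering of two copies of the vertices -/
private def Comb_num (ν : V → ℕ) (x : V × Bool) : ℕ := 2 * ν x.1 + (if x.2 then 1 else 0)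

/-- the first copy has value true -/
private def Comb_chi (x : V × Bool) : Bool := !x.2

/-- the first set in the first copy, the second one in the second copy -/
private def Comb_U (σ τ : Finset V) : Finset (V × Bool) :=
  σ.image (fun v => (v, false)) ∪ τ.image (fun v => (v, true))

/-- the alternating pairs of sets (possibly with common elements) -/
private noncomputable def Comb_E (ν : V → ℕ) (b : Bool) (σ τ : Finset V) : ZMod 2 :=
  altF (Comb_num ν) Comb_chi b (Comb_U σ τ)

omit [DecidableEq V] [Fintype V] in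
private theorem Comb_num_inj {ν : V → ℕ} (hν : Function.Injective ν) :
    Function.Injective (Comb_num ν) := by
  rintro ⟨x, a⟩ ⟨y, b⟩ h
  simp only [Comb_num] at h
  have h1 : ν x = ν y ∧ a = b := by
    cases a <;> cases b <;> simp at h ⊢ <;> omega
  rw [hν h1.1, h1.2]

omit [Fintype V] in
private theorem Comb_mem_U {σ τ : Finset V} {x : V × Bool} :
    x ∈ Comb_U σ τ ↔ (x.2 = false ∧ x.1 ∈ σ) ∨ (x.2 = true ∧ x.1 ∈ τ) := by
  obtain ⟨v, b⟩ := x
  unfold Comb_U
  rw [mem_union, mem_image, mem_image]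
  constructor
  · rintro (⟨w, hw, h⟩ | ⟨w, hw, h⟩)
    · simp only [Prod.mk.injEq] at h
      exact Or.inl ⟨h.2.symm, h.1 ▸ hw⟩
    · simp only [Prod.mk.injEq] at h
      exact Or.inr ⟨h.2.symm, h.1 ▸ hw⟩
  · rintro (⟨h1, h2⟩ | ⟨h1, h2⟩)
    · exact Or.inl ⟨v, h2, Prod.ext rfl h1.symm⟩
    · exact Or.inr ⟨v, h2, Prod.ext rfl h1.symm⟩

omit [Fintype V] in
private theorem Comb_E_sum {ν : V → ℕ} (hν : Function.Injective ν) (σ τ : Finset V) :
    ∑ v ∈ σ, Comb_E ν true (σ.erase v) τ + ∑ v ∈ τ, Comb_E ν true σ (τ.erase v) =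
      Comb_E ν true σ τ + Comb_E ν false σ τ := by
  have h := altF_sum_erase (Comb_num_inj hν) Comb_chi (Comb_U σ τ) true
  rw [Bool.not_true] at h
  unfold Comb_E
  rw [← h]
  have h1 : ∀ F : V × Bool → ZMod 2, ∑ x ∈ Comb_U σ τ, F x =
      ∑ v ∈ σ, F (v, false) + ∑ v ∈ τ, F (v, true) := by
    intro F
    unfold Comb_U
    rw [sum_union, sum_image, sum_image]
    · intro a _ b _ hab
      exact (Prod.mk.inj hab).1
    · intro a _ b _ hab
      exact (Prod.mk.inj hab).1
    · rw [disjoint_left]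
      intro x hx hx'
      rw [mem_image] at hx hx'
      obtain ⟨a, _, rfl⟩ := hx
      obtain ⟨b, _, hb⟩ := hx'
      exact absurd (Prod.mk.inj hb).2 (by decide)
  rw [h1]
  congr 1
  · refine sum_congr rfl fun v _ => ?_
    congr 1
    ext ⟨x, b⟩
    rw [mem_erase, Comb_mem_U, Comb_mem_U, mem_erase]
    cases b <;> simp
  · refine sum_congr rfl fun v _ => ?_
    congr 1
    ext ⟨x, b⟩
    rw [mem_erase, Comb_mem_U, Comb_mem_U, mem_erase]
    cases b <;> simp

omit [Fintype V] in
private theorem Comb_altF_image {W : Type} [DecidableEq W] {ν : V → ℕ} {ν' : W → ℕ}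
    {χ : W → Bool} (f : V → W) {b : Bool} {P : Finset V}
    (hf : ∀ x ∈ P, ∀ y ∈ P, ν' (f x) < ν' (f y) ↔ ν x < ν y) :
    altF ν' χ b (P.image f) = altF ν (fun v => χ (f v)) b P := by
  have h : AltP ν' χ b (P.image f) ↔ AltP ν (fun v => χ (f v)) b P := by
    constructor
    · rintro ⟨h1, h2⟩
      refine ⟨fun x hx y hy hxy hc => h1 (f x) (mem_image_of_mem f hx) (f y)
        (mem_image_of_mem f hy) ((hf x hx y hy).2 hxy) fun w hw hw' => ?_, fun x hx hm =>
        h2 (f x) (mem_image_of_mem f hx) fun w hw => ?_⟩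
      · obtain ⟨z, hz, rfl⟩ := mem_image.1 hw
        exact hc z hz ⟨(hf x hx z hz).1 hw'.1, (hf z hz y hy).1 hw'.2⟩
      · obtain ⟨z, hz, rfl⟩ := mem_image.1 hw
        by_contra hlt
        have := (hf z hz x hx).1 (not_le.1 hlt)
        exact absurd (hm z hz) (not_le.2 this)
    · rintro ⟨h1, h2⟩
      constructor
      · intro x' hx' y' hy' hxy hc
        obtain ⟨x, hx, rfl⟩ := mem_image.1 hx'
        obtain ⟨y, hy, rfl⟩ := mem_image.1 hy'
        exact h1 x hx y hy ((hf x hx y hy).1 hxy) fun z hz hz' =>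
          hc (f z) (mem_image_of_mem f hz) ⟨(hf x hx z hz).2 hz'.1, (hf z hz y hy).2 hz'.2⟩
      · intro x' hx' hm
        obtain ⟨x, hx, rfl⟩ := mem_image.1 hx'
        refine h2 x hx fun z hz => ?_
        by_contra hlt
        have := (hf z hz x hx).2 (not_le.1 hlt)
        exact absurd (hm (f z) (mem_image_of_mem f hz)) (not_le.2 this)
  unfold altF
  by_cases h1 : AltP ν' χ b (P.image f)
  · rw [if_pos h1, if_pos (h.1 h1)]
  · rw [if_neg h1, if_neg fun h2 => h1 (h.2 h2)]

omit [Fintype V] in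
private theorem Comb_E_disj {ν : V → ℕ} (hν : Function.Injective ν) (b : Bool) {σ τ : Finset V}
    (h : Disjoint σ τ) :
    Comb_E ν b σ τ = altF ν (fun v => decide (v ∈ σ)) b (σ ∪ τ) := by
  have hU : Comb_U σ τ = (σ ∪ τ).image fun v => (v, !decide (v ∈ σ)) := by
    ext ⟨x, c⟩
    rw [Comb_mem_U, mem_image]
    constructor
    · rintro (⟨h1, h2⟩ | ⟨h1, h2⟩)
      · refine ⟨x, mem_union_left _ h2, ?_⟩
        simp only at h1
        simp only at h2
        simp [h1, h2]
      · simp only at h1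
        simp only at h2
        have h3 : x ∉ σ := fun h3 => disjoint_left.1 h h3 h2
        refine ⟨x, mem_union_right _ h2, ?_⟩
        simp [h1, h3]
    · rintro ⟨y, hy, hyx⟩
      obtain ⟨rfl, h2⟩ := Prod.mk.inj hyx
      by_cases h3 : y ∈ σ
      · refine Or.inl ⟨?_, h3⟩
        simp [← h2, h3]
      · rcases mem_union.1 hy with h4 | h4
        · exact absurd h4 h3
        · refine Or.inr ⟨?_, h4⟩
          simp [← h2, h3]
  unfold Comb_E
  rw [hU, Comb_altF_image (ν := ν)]
  · refine altF_congr fun x _ => ?_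
    simp [Comb_chi]
  · intro x _ y _
    simp only [Comb_num]
    constructor
    · intro hlt
      by_contra hge
      rcases Nat.lt_or_ge (ν y) (ν x) with h5 | h5
      · split_ifs at hlt <;> omega
      · have : x = y := hν (by omega)
        subst this
        omega
    · intro hlt
      split_ifs <;> omega

omit [Fintype V] in
private theorem Comb_E_true {ν : V → ℕ} (hν : Function.Injective ν) {σ τ : Finset V}
    (h : Disjoint σ τ) : Comb_E ν true σ τ = eP ν σ τ := by
  rw [Comb_E_disj hν true h]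
  rfl

omit [Fintype V] in
private theorem Comb_E_false {ν : V → ℕ} (hν : Function.Injective ν) {σ τ : Finset V}
    (h : Disjoint σ τ) : Comb_E ν false σ τ = Comb_E ν true τ σ := by
  rw [Comb_E_disj hν false h, Comb_E_disj hν true h.symm, ← altF_not ν _ false, union_comm τ σ]
  refine altF_congr fun x hx => ?_
  rcases mem_union.1 hx with h1 | h1
  · have h2 : x ∉ τ := disjoint_left.1 h h1
    simp [h1, h2]
  · have h2 : x ∉ σ := fun h2 => disjoint_left.1 h h2 h1
    simp [h1, h2]

omit [Fintype V] in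
private theorem Comb_E_insert {ν : V → ℕ} (b : Bool) (u : V) {σ τ : Finset V}
    (h1 : ∀ x ∈ σ, ν u < ν x) (h2 : ∀ x ∈ τ, ν u < ν x) :
    Comb_E ν b (insert u σ) (insert u τ) = if b = true then Comb_E ν true σ τ else 0 := by
  have hU : Comb_U (insert u σ) (insert u τ) =
      insert (u, false) (insert (u, true) (Comb_U σ τ)) := by
    ext ⟨x, c⟩
    rw [Comb_mem_U]
    simp only [mem_insert, Comb_mem_U, Prod.mk.injEq]
    cases c <;> simp
  have h3 : ∀ x ∈ Comb_U σ τ, Comb_num ν (u, true) < Comb_num ν x := by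
    rintro ⟨x, c⟩ hx
    rw [Comb_mem_U] at hx
    have h4 : ν u < ν x := by
      rcases hx with ⟨_, hx⟩ | ⟨_, hx⟩
      · exact h1 x hx
      · exact h2 x hx
    simp only [Comb_num]
    split_ifs <;> omega
  have h4 : ∀ x ∈ insert (u, true) (Comb_U σ τ), Comb_num ν (u, false) < Comb_num ν x := by
    intro x hx
    have h5 : Comb_num ν (u, false) < Comb_num ν (u, true) := by
      simp [Comb_num]
    rcases mem_insert.1 hx with rfl | hx
    · exact h5
    · exact h5.trans (h3 x hx)
  unfold Comb_E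
  rw [hU, altF_insert _ _ _ _ h4]
  cases b
  · simp [Comb_chi]
  · rw [if_pos (show Comb_chi (u, false) = true from rfl), altF_insert _ _ _ _ h3,
      if_pos (show Comb_chi (u, true) = !true from rfl), if_pos rfl, Bool.not_not]

omit [Fintype V] in
private theorem Comb_E_empty (ν : V → ℕ) : Comb_E ν true ∅ ∅ = 1 := by
  unfold Comb_E altF
  refine if_pos ?_
  have h : Comb_U (∅ : Finset V) ∅ = ∅ := by
    unfold Comb_U
    simp
  rw [h]
  exact altP_empty _ _ _

/-! ### Reindexing -/

private theorem Comb_reindex (ρ : Finset V) (F : Finset V → Finset V → K) :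
    ∑ σ : Finset V, (if ρ ⊆ σ then ∑ v ∈ σ \ ρ, F (σ.erase v) σ else 0) =
      ∑ κ : Finset V, (if ρ ⊆ κ then ∑ v ∈ κᶜ, F κ (insert v κ) else 0) := by
  rw [← sum_filter, ← sum_filter, sum_sigma', sum_sigma']
  refine sum_bij' (fun p _ => ⟨p.1.erase p.2, p.2⟩) (fun p _ => ⟨insert p.2 p.1, p.2⟩)
    ?_ ?_ ?_ ?_ ?_
  · rintro ⟨σ, v⟩ h
    simp only [mem_sigma, mem_filter, mem_univ, true_and, mem_sdiff, mem_compl] at h ⊢
    refine ⟨fun x hx => mem_erase.2 ⟨?_, h.1 hx⟩, notMem_erase v σ⟩
    rintro rfl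
    exact h.2.2 hx
  · rintro ⟨κ, v⟩ h
    simp only [mem_sigma, mem_filter, mem_univ, true_and, mem_sdiff, mem_compl] at h ⊢
    exact ⟨fun x hx => mem_insert_of_mem (h.1 hx), mem_insert_self v κ, fun hv => h.2 (h.1 hv)⟩
  · rintro ⟨σ, v⟩ h
    simp only [mem_sigma, mem_filter, mem_univ, true_and, mem_sdiff] at h ⊢
    rw [insert_erase h.2.1]
  · rintro ⟨κ, v⟩ h
    simp only [mem_sigma, mem_filter, mem_univ, true_and, mem_compl] at h ⊢
    rw [erase_insert h.2]
  · rintro ⟨σ, v⟩ h
    simp only [mem_sigma, mem_filter, mem_univ, true_and, mem_sdiff] at h ⊢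
    rw [insert_erase h.2.1]

private theorem Comb_zero (ρ : Finset V) (e q : Finset V → K)
    (hq : ∀ κ, ∑ v ∈ κᶜ, q (insert v κ) = 0) :
    ∑ σ : Finset V, (if ρ ⊆ σ then (∑ v ∈ σ \ ρ, e ((σ \ ρ).erase v)) * q σ else 0) = 0 := by
  have h := Comb_reindex ρ fun κ σ => e (κ \ ρ) * q σ
  simp only [← mul_sum, hq, mul_zero, ite_self, sum_const_zero] at h
  refine Eq.trans (sum_congr rfl fun σ _ => ?_) h
  split_ifs
  · rw [sum_mul]
    refine sum_congr rfl fun v _ => ?_
    rw [erase_sdiff_comm]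
  · rfl

/-- **The combinatorial core.** `s` consists of the first `k + 1` vertices in the numbering `ν`,
`ρ_j` is the set of the first `j` vertices.

Proof (note 3772, L5). On `V × Bool` with the numbering `2 * ν v + b` and `χ (v, b) = !b` put
`E b σ τ = altF _ χ b (σ × {false} ∪ τ × {true})`. `altF_sum_erase` gives
`E true σ τ + E false σ τ = ∑ v ∈ σ, E true (σ.erase v) τ + ∑ v ∈ τ, E true σ (τ.erase v)`; so for each `j ≤ k`
`∑ σ ⊇ ρ_j, ∑ τ ⊇ ρ_j, (E true (σ \ ρ_j) (τ \ ρ_j) + E false (σ \ ρ_j) (τ \ ρ_j)) * Q (j + 1) σ τ = 0`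
by `lin1`, `lin2`. By `hB` only the pairs with `σ ∩ τ = ρ_j` or `ρ_{j+1}` contribute. In the first
case `E false σ' τ' = E true τ' σ' = eP ν τ' σ'` (`σ'`, `τ'` are disjoint) and `hC` applies; in the second
case the vertex with number `j` is the first one of both sets and `E false = 0`,
`E true (insert u σ'') (insert u τ'') = E true σ'' τ''` (`altF_insert` twice). So
`J_j = ∑ σ ∩ τ = ρ_j, E true (σ \ ρ_j) (τ \ ρ_j) * Q j σ τ` does not depend on `j`, and
`J_{k+1} = Q (k + 1) s s`. `J_0 = 0` by the hypothesis `VanKampenZero` (`vanKampen_all` for the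
numbering `ν`, `eP_add_swap`, `hD`). -/
theorem comb (G : SimpleGraph V) (k : ℕ) (hvk : VanKampenZero G k) {ν : V → ℕ}
    (hν : Function.Injective ν) (s : Finset V) (hs : ∀ v, ν v < k + 1 ↔ v ∈ s)
    (hcard : s.card = k + 1) (Q : ℕ → Finset V → Finset V → K)
    (supp : ∀ j σ τ, Q j σ τ ≠ 0 → (G.IsClique (σ : Set V) ∧ σ.card = k + 1) ∧
      G.IsClique (τ : Set V) ∧ τ.card = k + 1)
    (lin1 : ∀ j κ τ, ∑ v ∈ κᶜ, Q j (insert v κ) τ = 0)
    (lin2 : ∀ j σ κ, ∑ v ∈ κᶜ, Q j σ (insert v κ) = 0)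
    (hB : ∀ j σ τ, Q j σ τ ≠ 0 → ∀ v ∈ σ, v ∈ τ → ν v < j)
    (hC : ∀ j ≤ k, ∀ σ τ, (∀ v, ν v < j → v ∈ σ ∧ v ∈ τ) →
      Q j σ τ = Q (j + 1) σ τ + Q (j + 1) τ σ)
    (hD : ∀ σ τ, Q 0 σ τ = Q 0 τ σ) : Q (k + 1) s s = 0 := by
  classical
  set c : ZMod 2 →+* K := ZMod.castHom (dvd_refl 2) K with hc
  have hK : ∀ x : K, x + x = 0 := fun x => CharTwo.add_self_eq_zero x
  set ρ : ℕ → Finset V := fun j => univ.filter fun v => ν v < j with hρ
  have hmem : ∀ j v, v ∈ ρ j ↔ ν v < j := by
    intro j v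
    simp [hρ]
  -- every number up to `k` occurs
  have hsρ : s = ρ (k + 1) := by
    ext v
    rw [hmem, hs]
  have hex : ∀ j ≤ k, ∃ u, ν u = j := by
    intro j hj
    have h1 : s.image ν = range (k + 1) := by
      refine eq_of_subset_of_card_le ?_ ?_
      · intro n hn
        obtain ⟨v, hv, rfl⟩ := mem_image.1 hn
        exact mem_range.2 ((hs v).2 hv)
      · rw [card_image_of_injective _ hν, card_range, hcard]
    have h2 : j ∈ s.image ν := by
      rw [h1]
      exact mem_range.2 (by omega)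
    obtain ⟨u, _, hu⟩ := mem_image.1 h2
    exact ⟨u, hu⟩
  set J : ℕ → K := fun j => ∑ σ : Finset V, ∑ τ : Finset V,
    if σ ∩ τ = ρ j then c (Comb_E ν true (σ \ ρ j) (τ \ ρ j)) * Q j σ τ else 0 with hJ
  -- the step
  have step : ∀ j ≤ k, J j = J (j + 1) := by
    intro j hj
    obtain ⟨u, hu⟩ := hex j hj
    have hρs : ρ (j + 1) = insert u (ρ j) := by
      ext v
      rw [mem_insert, hmem, hmem]
      constructor
      · intro h
        by_cases h1 : ν v = j
        · exact Or.inl (hν (by rw [h1, hu]))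
        · exact Or.inr (by omega)
      · rintro (rfl | h) <;> omega
    have huρ : u ∉ ρ j := by
      rw [hmem]
      omega
    have S0 : ∑ σ : Finset V, ∑ τ : Finset V, (if ρ j ⊆ σ ∧ ρ j ⊆ τ then
        c (Comb_E ν true (σ \ ρ j) (τ \ ρ j) + Comb_E ν false (σ \ ρ j) (τ \ ρ j)) *
          Q (j + 1) σ τ else 0) = 0 := by
      have h1 : ∑ σ : Finset V, ∑ τ : Finset V, (if ρ j ⊆ σ ∧ ρ j ⊆ τ then
          (∑ v ∈ σ \ ρ j, c (Comb_E ν true ((σ \ ρ j).erase v) (τ \ ρ j))) *
            Q (j + 1) σ τ else 0) = 0 := by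
        rw [sum_comm]
        refine sum_eq_zero fun τ _ => ?_
        by_cases hτ : ρ j ⊆ τ
        · simp only [hτ, and_true]
          exact Comb_zero (ρ j) (fun κ => c (Comb_E ν true κ (τ \ ρ j)))
            (fun σ => Q (j + 1) σ τ) fun κ => lin1 (j + 1) κ τ
        · simp only [hτ, and_false, if_false, sum_const_zero]
      have h2 : ∑ σ : Finset V, ∑ τ : Finset V, (if ρ j ⊆ σ ∧ ρ j ⊆ τ then
          (∑ v ∈ τ \ ρ j, c (Comb_E ν true (σ \ ρ j) ((τ \ ρ j).erase v))) *
            Q (j + 1) σ τ else 0) = 0 := by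
        refine sum_eq_zero fun σ _ => ?_
        by_cases hσ : ρ j ⊆ σ
        · simp only [hσ, true_and]
          exact Comb_zero (ρ j) (fun κ => c (Comb_E ν true (σ \ ρ j) κ))
            (fun τ => Q (j + 1) σ τ) fun κ => lin2 (j + 1) σ κ
        · simp only [hσ, false_and, if_false, sum_const_zero]
      have h3 := congrArg₂ (· + ·) h1 h2
      simp only [add_zero] at h3
      rw [← sum_add_distrib] at h3
      refine Eq.trans (sum_congr rfl fun σ _ => ?_) h3
      rw [← sum_add_distrib]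
      refine sum_congr rfl fun τ _ => ?_
      split_ifs
      · rw [← Comb_E_sum hν, map_add, map_sum, map_sum, add_mul]
      · rw [add_zero]
    have point : ∀ σ τ : Finset V, (if ρ j ⊆ σ ∧ ρ j ⊆ τ then
        c (Comb_E ν true (σ \ ρ j) (τ \ ρ j) + Comb_E ν false (σ \ ρ j) (τ \ ρ j)) *
          Q (j + 1) σ τ else 0) =
        (if σ ∩ τ = ρ j then c (Comb_E ν true (σ \ ρ j) (τ \ ρ j)) * Q (j + 1) σ τ else 0) +
        (if σ ∩ τ = ρ j then c (Comb_E ν true (τ \ ρ j) (σ \ ρ j)) * Q (j + 1) σ τ else 0) +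
        (if σ ∩ τ = ρ (j + 1) then
          c (Comb_E ν true (σ \ ρ (j + 1)) (τ \ ρ (j + 1))) * Q (j + 1) σ τ else 0) := by
      intro σ τ
      by_cases hQ : Q (j + 1) σ τ = 0
      · simp only [hQ, mul_zero, ite_self, add_zero]
      have hsub : ∀ v ∈ σ, v ∈ τ → v ∈ ρ (j + 1) := fun v h1 h2 =>
        (hmem _ _).2 (hB (j + 1) σ τ hQ v h1 h2)
      by_cases h0 : ρ j ⊆ σ ∧ ρ j ⊆ τ
      · by_cases hu' : u ∈ σ ∧ u ∈ τ
        · have h1 : σ ∩ τ = ρ (j + 1) := by
            ext v
            rw [mem_inter]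
            constructor
            · rintro ⟨h1, h2⟩
              exact hsub v h1 h2
            · intro hv
              rw [hρs, mem_insert] at hv
              rcases hv with rfl | hv
              · exact hu'
              · exact ⟨h0.1 hv, h0.2 hv⟩
          have h2 : σ ∩ τ ≠ ρ j := by
            intro h2
            rw [← h2, mem_inter] at huρ
            exact huρ hu'
          rw [if_pos h0, if_neg h2, if_neg h2, if_pos h1, zero_add, zero_add]
          have h3 : ∀ φ : Finset V, u ∈ φ → φ \ ρ j = insert u (φ \ ρ (j + 1)) := by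
            intro φ hφ
            ext v
            rw [hρs]
            simp only [mem_sdiff, mem_insert, not_or]
            constructor
            · rintro ⟨h4, h5⟩
              by_cases h6 : v = u
              · exact Or.inl h6
              · exact Or.inr ⟨h4, h6, h5⟩
            · rintro (rfl | ⟨h4, _, h5⟩)
              · exact ⟨hφ, huρ⟩
              · exact ⟨h4, h5⟩
          have h4 : ∀ φ : Finset V, ∀ x ∈ φ \ ρ (j + 1), ν u < ν x := by
            intro φ x hx
            rw [mem_sdiff, hmem] at hx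
            omega
          rw [h3 σ hu'.1, h3 τ hu'.2, Comb_E_insert true u (h4 σ) (h4 τ),
            Comb_E_insert false u (h4 σ) (h4 τ), if_pos rfl, if_neg (by decide), add_zero]
        · have h1 : σ ∩ τ = ρ j := by
            ext v
            rw [mem_inter]
            constructor
            · rintro ⟨h1, h2⟩
              have h3 := hsub v h1 h2
              rw [hρs, mem_insert] at h3
              rcases h3 with rfl | h3
              · exact absurd ⟨h1, h2⟩ hu'
              · exact h3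
            · intro hv
              exact ⟨h0.1 hv, h0.2 hv⟩
          have h2 : σ ∩ τ ≠ ρ (j + 1) := by
            intro h2
            rw [h1, hρs] at h2
            exact huρ (by rw [h2]; exact mem_insert_self _ _)
          have hd : Disjoint (σ \ ρ j) (τ \ ρ j) := by
            rw [disjoint_left]
            intro x hx hx'
            rw [mem_sdiff] at hx hx'
            refine hx.2 ?_
            rw [← h1, mem_inter]
            exact ⟨hx.1, hx'.1⟩
          rw [if_pos h0, if_pos h1, if_pos h1, if_neg h2, add_zero, map_add, add_mul,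
            Comb_E_false hν hd]
      · have h1 : σ ∩ τ ≠ ρ j := by
          intro h1
          exact h0 (by rw [← h1]; exact ⟨inter_subset_left, inter_subset_right⟩)
        have h2 : σ ∩ τ ≠ ρ (j + 1) := by
          intro h2
          have h3 : ρ j ⊆ σ ∩ τ := by
            rw [h2, hρs]
            exact subset_insert _ _
          exact h0 ⟨h3.trans inter_subset_left, h3.trans inter_subset_right⟩
        rw [if_neg h0, if_neg h1, if_neg h1, if_neg h2, add_zero, add_zero]
    simp only [point, sum_add_distrib] at S0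
    have hswap : ∑ σ : Finset V, ∑ τ : Finset V,
        (if σ ∩ τ = ρ j then c (Comb_E ν true (τ \ ρ j) (σ \ ρ j)) * Q (j + 1) σ τ else 0) =
        ∑ σ : Finset V, ∑ τ : Finset V,
        (if σ ∩ τ = ρ j then c (Comb_E ν true (σ \ ρ j) (τ \ ρ j)) * Q (j + 1) τ σ else 0) := by
      rw [sum_comm]
      refine sum_congr rfl fun σ _ => sum_congr rfl fun τ _ => ?_
      rw [inter_comm]
    have hJj : J j = ∑ σ : Finset V, ∑ τ : Finset V,
        (if σ ∩ τ = ρ j then c (Comb_E ν true (σ \ ρ j) (τ \ ρ j)) * Q (j + 1) σ τ else 0) +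
        ∑ σ : Finset V, ∑ τ : Finset V,
        (if σ ∩ τ = ρ j then c (Comb_E ν true (σ \ ρ j) (τ \ ρ j)) * Q (j + 1) τ σ else 0) := by
      rw [← sum_add_distrib]
      simp only [hJ]
      refine sum_congr rfl fun σ _ => ?_
      rw [← sum_add_distrib]
      refine sum_congr rfl fun τ _ => ?_
      split_ifs with h
      · rw [← mul_add, ← hC j hj σ τ]
        intro v hv
        have h1 : v ∈ σ ∩ τ := by
          rw [h, hmem]
          exact hv
        exact mem_inter.1 h1
      · rw [add_zero]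
    rw [hswap, ← hJj] at S0
    exact CharTwo.add_eq_zero.1 S0
  have hJ0 : J 0 = J (k + 1) := by
    have h1 : ∀ j, j ≤ k + 1 → J 0 = J j := by
      intro j
      induction j with
      | zero => intro _; rfl
      | succ j ih =>
        intro hj
        rw [ih (by omega)]
        exact step j (by omega)
    exact h1 (k + 1) le_rfl
  -- the value at the end
  have hJk : J (k + 1) = Q (k + 1) s s := by
    simp only [hJ]
    rw [sum_eq_single s, sum_eq_single s]
    · rw [inter_self, if_pos hsρ, ← hsρ, sdiff_self, bot_eq_empty, Comb_E_empty, map_one,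
        one_mul]
    · intro τ _ hτ
      split_ifs with h
      · by_contra hne
        have h1 := (supp _ _ _ (right_ne_zero_of_mul hne)).2.2
        rw [← hsρ] at h
        exact hτ (eq_of_subset_of_card_le (inter_eq_left.1 h) (by omega)).symm
      · rfl
    · intro h
      exact absurd (mem_univ s) h
    · intro σ _ hσ
      refine sum_eq_zero fun τ _ => ?_
      split_ifs with h
      · by_contra hne
        have h1 := (supp _ _ _ (right_ne_zero_of_mul hne)).1.2
        rw [← hsρ] at h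
        refine hσ (eq_of_subset_of_card_le ?_ (by omega)).symm
        rw [← h]
        exact inter_subset_left
      · rfl
    · intro h
      exact absurd (mem_univ s) h
  rw [← hJk, ← hJ0]
  -- the value at the beginning
  obtain ⟨g, hg⟩ := vanKampen_all hvk hν
  have hdis : ∀ σ τ, Q 0 σ τ ≠ 0 → Disjoint σ τ := by
    intro σ τ h
    rw [disjoint_left]
    intro v h1 h2
    have := hB 0 σ τ h v h1 h2
    omega
  set D : Finset V → Finset V → ZMod 2 := fun σ τ =>
    Comb_E ν true σ τ + ∑ v ∈ τ, g σ (τ.erase v) with hDdef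
  have hDs : ∀ σ τ, Q 0 σ τ ≠ 0 → D σ τ = D τ σ := by
    intro σ τ h
    obtain ⟨⟨h1, h2⟩, h3, h4⟩ := supp 0 σ τ h
    have h5 := hdis σ τ h
    have h6 := hg σ τ h1 h2 h3 h4 h5
    have hne : (σ ∪ τ).Nonempty := by
      rw [← card_pos]
      exact lt_of_lt_of_le (by omega) (card_le_card (subset_union_left (s₁ := σ) (s₂ := τ)))
    rw [← eP_add_swap hν h5 hne] at h6
    simp only [hDdef]
    rw [Comb_E_true hν h5, Comb_E_true hν h5.symm]
    apply zmod2_eq_of_add
    have h7 : eP ν σ τ + ∑ v ∈ τ, g σ (τ.erase v) + (eP ν τ σ + ∑ v ∈ σ, g τ (σ.erase v)) =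
        (eP ν σ τ + eP ν τ σ) + (∑ v ∈ τ, g σ (τ.erase v) + ∑ v ∈ σ, g τ (σ.erase v)) := by
      ring
    rw [h7, h6]
    exact zmod2_add_self _
  have hsum : ∑ σ : Finset V, ∑ τ : Finset V, c (D σ τ) * Q 0 σ τ = 0 := by
    rw [← sum_product']
    refine sum_involution (fun p _ => (p.2, p.1)) ?_ ?_ ?_ ?_
    · rintro ⟨σ, τ⟩ _
      show c (D σ τ) * Q 0 σ τ + c (D τ σ) * Q 0 τ σ = 0
      rw [hD τ σ]
      by_cases h : Q 0 σ τ = 0
      · rw [h, mul_zero, mul_zero, add_zero]
      · rw [hDs σ τ h]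
        exact hK _
    · rintro ⟨σ, τ⟩ _ hne heq
      have h1 : Q 0 σ τ ≠ 0 := right_ne_zero_of_mul hne
      have h2 : σ = τ := (Prod.mk.inj heq).2
      have h3 := hdis σ τ h1
      have h4 := (supp 0 σ τ h1).1.2
      rw [← h2, disjoint_self, bot_eq_empty] at h3
      rw [h3, card_empty] at h4
      omega
    · rintro ⟨σ, τ⟩ _
      exact mem_product.2 ⟨mem_univ _, mem_univ _⟩
    · rintro ⟨σ, τ⟩ _
      rfl
  have hgsum : ∑ σ : Finset V, ∑ τ : Finset V,
      c (∑ v ∈ τ, g σ (τ.erase v)) * Q 0 σ τ = 0 := by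
    refine sum_eq_zero fun σ _ => ?_
    have h1 := Comb_zero ∅ (fun κ => c (g σ κ)) (fun τ => Q 0 σ τ) (lin2 0 σ)
    simp only [empty_subset, if_true, sdiff_empty] at h1
    refine Eq.trans (sum_congr rfl fun τ _ => ?_) h1
    rw [map_sum]
  have hρ0 : ρ 0 = ∅ := by
    ext v
    rw [hmem]
    simp
  have hJz : J 0 = ∑ σ : Finset V, ∑ τ : Finset V, c (D σ τ) * Q 0 σ τ +
      ∑ σ : Finset V, ∑ τ : Finset V, c (∑ v ∈ τ, g σ (τ.erase v)) * Q 0 σ τ := by
    rw [← sum_add_distrib]
    simp only [hJ]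
    refine sum_congr rfl fun σ _ => ?_
    rw [← sum_add_distrib]
    refine sum_congr rfl fun τ _ => ?_
    rw [hρ0, sdiff_empty, sdiff_empty, ← add_mul, ← map_add]
    by_cases h : Q 0 σ τ = 0
    · rw [h, mul_zero, mul_zero, ite_self]
    · rw [if_pos (disjoint_iff_inter_eq_empty.1 (hdis σ τ h))]
      simp only [hDdef]
      rw [add_assoc, zmod2_add_self, add_zero]
  rw [hJz, hsum, hgsum, add_zero]

end Pool.Agent.H77.SW
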