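import Pool.Agent.H77.SW.Lower

/-!
# Singer without colours: good covers
-/

set_option autoImplicit false
set_option linter.unusedSectionVars false

open Finset

namespace Pool.Agent.H77.SW

variable {V : Type} [DecidableEq V] [Fintype V] {K : Type} [Field K] [CharP K 2]

/-- the marked involutions of the cover -/
private def Cover_g {G : SimpleGraph V} {P : Type} [Group P] (D : PG G P) (v : V) :
    Finset V → P := fun T => if v ∈ T then D.g v else 1

/-- the cover -/
private def Cover_D {G : SimpleGraph V} {P : Type} [Group P] [Fintype P] (D : PG G P) :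
    PG G (Finset V → P) where
  g := Cover_g D
  sq := by
    intro v
    funext T
    simp only [Cover_g, Pi.mul_apply, Pi.one_apply]
    split_ifs
    · exact D.sq v
    · exact one_mul 1
  comm := by
    intro u v h
    funext T
    simp only [Cover_g, Pi.mul_apply]
    split_ifs
    · exact D.comm u v h
    · rw [mul_one, one_mul]
    · rw [mul_one, one_mul]
    · rfl
  b := fun p => D.b (p univ)
  b_mul := fun p q v => D.b_mul (p univ) (q univ) v
  b_g := by
    intro u v
    have h : Cover_g D u univ = D.g u := if_pos (mem_univ u)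
    rw [h]
    exact D.b_g u v
  two := by
    obtain ⟨m, hm⟩ := IsPGroup.iff_card.1 D.two
    refine IsPGroup.iff_card.2 ⟨m * Fintype.card (Finset V), ?_⟩
    rw [Nat.card_eq_fintype_card] at hm
    rw [Nat.card_eq_fintype_card, Fintype.card_fun, hm, pow_mul]

/-- the restriction to a set of vertices -/
private def Cover_rho {P : Type} [Group P] (S : V → Prop) [DecidablePred S] :
    (Finset V → P) →* (Finset V → P) where
  toFun p := fun T => p (T.filter S)
  map_one' := rfl
  map_mul' _ _ := rfl

private theorem Cover_good {G : SimpleGraph V} {P : Type} [Group P] [Fintype P] (D : PG G P) :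
    Good (Cover_D D) := by
  classical
  intro S T x hx
  obtain ⟨h1, h2⟩ := Subgroup.mem_inf.1 hx
  have hfix : ∀ v ∈ S, Cover_rho (fun v => v ∈ S) ((Cover_D D).g v) = (Cover_D D).g v := by
    intro v hv
    funext A
    change Cover_g D v (A.filter fun v => v ∈ S) = Cover_g D v A
    simp only [Cover_g, mem_filter, hv, and_true]
  have hone : ∀ v, v ∉ S → Cover_rho (fun v => v ∈ S) ((Cover_D D).g v) = 1 := by
    intro v hv
    funext A
    change Cover_g D v (A.filter fun v => v ∈ S) = 1
    simp only [Cover_g, mem_filter, hv, and_false, if_false]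
  have h3 : Cover_rho (fun v => v ∈ S) x = x := by
    have h4 : Subgroup.closure ((Cover_D D).g '' S) ≤
        (Cover_rho (P := P) fun v => v ∈ S).eqLocus (MonoidHom.id _) := by
      rw [Subgroup.closure_le]
      rintro _ ⟨v, hv, rfl⟩
      exact hfix v hv
    exact h4 h1
  have h5 : Subgroup.closure ((Cover_D D).g '' T) ≤
      (Subgroup.closure ((Cover_D D).g '' (S ∩ T))).comap (Cover_rho fun v => v ∈ S) := by
    rw [Subgroup.closure_le]
    rintro _ ⟨v, hv, rfl⟩
    change Cover_rho (fun v => v ∈ S) ((Cover_D D).g v) ∈
      Subgroup.closure ((Cover_D D).g '' (S ∩ T))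
    by_cases hS : v ∈ S
    · rw [hfix v hS]
      exact Subgroup.subset_closure ⟨v, ⟨hS, hv⟩, rfl⟩
    · rw [hone v hS]
      exact Subgroup.one_mem _
  have h6 := h5 h2
  rw [Subgroup.mem_comap, h3] at h6
  exact h6

/-- the translations -/
private def Cover_R (K : Type) [Field K] {P : Type} [Group P] (p' : Finset V → P) :
    (P → K) →ₗ[K] (P → K) where
  toFun f p := f (p * (p' univ)⁻¹)
  map_add' _ _ := rfl
  map_smul' _ _ := rfl

/-- **Good covers.** Take `P' = Finset V → P`, `g' v = fun T => if v ∈ T then g v else 1`,
`b' p = b (p univ)`. For a set `S` of vertices the map `ρ_S p = fun T => p (T.filter (· ∈ S))` is an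
endomorphism of `P'` with `ρ_S (g' v) = g' v` for `v ∈ S` and `= 1` for `v ∉ S`; so it fixes the
subgroup of `S` pointwise and maps the subgroup of `T` into the subgroup of `S ∩ T`. The inequality is
`lower` for the group `P'`, `J = P`, `r = rP K D`, `R p' f p = f (p * (p' univ)⁻¹)`. -/
theorem exists_good (G : SimpleGraph V) (n : ℕ) {P : Type} [Group P] [Fintype P] (D : PG G P) :
    ∃ (P' : Type) (_ : Group P') (_ : Fintype P') (D' : PG G P'), Good D' ∧
      Fintype.card P * dz K n D' ≤ Fintype.card P' * dz K n D := by
  refine ⟨Finset V → P, inferInstance, inferInstance, Cover_D D, Cover_good D, ?_⟩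
  refine lower G n (Cover_D D) (rP K D) (Cover_R K) ?_ ?_
  · intro p' f f' h
    funext p
    have h1 := congrFun h (p * p' univ)
    have h2 : f (p * p' univ * (p' univ)⁻¹) = f' (p * p' univ * (p' univ)⁻¹) := h1
    rw [mul_inv_cancel_right] at h2
    exact h2
  · intro p' v f
    funext p
    have h1 : (p' * (Cover_D D).g v) univ = p' univ * D.g v := by
      change p' univ * Cover_g D v univ = p' univ * D.g v
      rw [show Cover_g D v univ = D.g v from if_pos (mem_univ v)]
    change f (p * D.g v * ((p' * (Cover_D D).g v) univ)⁻¹) = f (p * (p' univ)⁻¹)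
    rw [h1, mul_inv_rev, mul_assoc, mul_inv_cancel_left]

end Pool.Agent.H77.SW
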