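import Pool.Agent.H77.SW.Count
import Pool.Agent.H77.SW.Seq
import Pool.Agent.H4.Singer.Core

/-!
# Singer without colours: the main theorem for right-angled Coxeter groups
-/

set_option autoImplicit false
set_option linter.unusedSectionVars false

open Finset Filter Topology

namespace Pool.Agent.H77.SW

open Pool.Agent.H4.Singer Pool.Agent.H4.Atiyah Pool.Agent.H85.VK

variable {V : Type} [DecidableEq V] [Fintype V]

/-- the graph, every vertex has its own colour -/
def colI (G : SimpleGraph V) : ColGraph V V where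
  adj := G.Adj
  symm _ _ h := h.symm
  col := id
  ne _ _ h := h.ne

/-- the action of the marked involutions on the right -/
def actP {G : SimpleGraph V} {P : Type} [Group P] (D : PG G P) : InvAct (colI G) P where
  s v p := p * D.g v
  invol v p := by rw [mul_assoc, D.sq, mul_one]
  comm u v h p := by
    rw [mul_assoc, mul_assoc, D.comm v u h.symm]
  bit p v := decide (D.b p v = 1)
  bit_s v p := by
    funext u
    show decide (D.b (p * D.g v) u = 1) = _
    rw [D.b_mul, D.b_g]
    by_cases h : u = v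
    · subst h
      rw [if_pos rfl]
      show _ = Function.update (fun w => decide (D.b p w = 1)) u (!(decide (D.b p u = 1))) u
      rw [Function.update_self]
      have key : ∀ x : ZMod 2, decide (x + 1 = 1) = !(decide (x = 1)) := by decide
      exact key _
    · rw [if_neg fun h' => h h'.symm, add_zero]
      show _ = Function.update (fun w => decide (D.b p w = 1)) v (!(decide (D.b p v = 1))) u
      rw [Function.update_of_ne h]

theorem bet_le_dz {K : Type} [Field K] [CharP K 2] (G : SimpleGraph V) (k : ℕ)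
    (hdim : ∀ σ : Finset V, G.IsClique (σ : Set V) → σ.card ≤ k + 1) {P : Type} [Group P]
    [Fintype P] (D : PG G P) (ν : V → ℕ) (i : ℕ) (hi : k < i) :
    bet K (actP D) ν i ≤ dz K (k + 1) D := by
  have hcl : ∀ σ : Finset V, (colI G).Cl σ ↔ G.IsClique (σ : Set V) := by
    intro σ
    constructor
    · intro h u hu v hv huv
      exact h u hu v hv huv
    · intro h u hu v hv huv
      exact h hu hv huv
  refine (Nat.sub_le _ _).trans ?_
  unfold dz
  refine Submodule.finrank_mono ?_
  rintro f ⟨⟨h1, h2⟩, h3⟩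
  have hi' : ∀ σ ω, f σ ω ≠ 0 → G.IsClique (σ : Set V) ∧ σ.card = k + 1 := by
    intro σ ω h
    obtain ⟨h4, h5⟩ := h1 σ ω h
    rw [hcl] at h4
    have h6 := hdim σ h4
    exact ⟨h4, by omega⟩
  refine ⟨fun σ h => ?_, fun σ v hv => ?_, fun κ => ?_⟩
  · obtain ⟨ω, hω⟩ := Function.ne_iff.1 h
    exact hi' σ ω hω
  · funext ω
    show f σ (ω * D.g v) = f σ ω
    have h4 : f σ (ω * D.g v) = - f σ ω := h2 σ v hv ω
    rw [h4, CharTwo.neg_eq]
  · funext ω
    have h4 : dl K ν f κ ω = 0 := by
      have h5 : dl K ν f = 0 := h3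
      rw [h5]
      rfl
    rw [dl_apply] at h4
    rw [Finset.sum_apply, Pi.zero_apply, ← h4]
    refine sum_congr rfl fun v _ => ?_
    have h5 : (sg ν v κ : K) = 1 := by
      unfold sg
      rw [Int.cast_pow, Int.cast_neg, Int.cast_one, CharTwo.neg_eq, one_pow]
    rw [h5, one_mul]

/-- **The main theorem for right-angled Coxeter groups.** -/
theorem l2_all (G : SimpleGraph V) (k : ℕ)
    (hdim : ∀ σ : Finset V, G.IsClique (σ : Set V) → σ.card ≤ k + 1) (hvk : VanKampenZero G k)
    (i : ℕ) (hi : k < i) : L2HomologyZero G i := by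
  classical
  intro ν hν z hz hdz ε hε
  refine l2_hodge G ν hν i ?_ z hz hdz ε hε
  obtain ⟨K, _, _, ⟨X⟩⟩ := exists_genSeq
  have h1 := fun L => exists_two_group G L
  choose P₁ grp₁ fin₁ π₁ hP₁ hsep using h1
  have h2 := fun j : ℕ => small X G k hdim hvk (1 / (j + 1 : ℝ)) (by positivity)
  choose P₂ grp₂ fin₂ D hD using h2
  have h3 : ∀ j, ∃ π : RGrp G →* P₂ j, ∀ v, π (gen G v) = (D j).g v := fun j =>
    exists_lift G (D j).g (D j).sq (D j).comm
  choose π₂ hπ₂ using h3
  obtain ⟨kk, n, A, hA, hdim'⟩ := exists_harm_matrix G (colI G) (fun _ _ => Iff.rfl) ν hν i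
  let π : ∀ j, RGrp G →* P₁ j × P₂ j := fun j => (π₁ j).prod (π₂ j)
  have hsep' : ∀ w : RGrp G, w ≠ 1 → ∀ᶠ j in atTop, π j w ≠ 1 := by
    intro w hw
    filter_upwards [eventually_ge_atTop ((racg G).toCoxeterSystem.length w)] with j hj h
    exact hsep j w hw hj (congrArg Prod.fst h)
  refine hA (l2ker_trivial π hsep' A ?_)
  intro η hη
  let XP : ∀ j, InvAct (colI G) (P₁ j × P₂ j) := fun j =>
    { s := fun v p => p * π j (gen G v)
      invol := fun v p => by rw [mul_assoc, ← map_mul, gen_mul_gen, map_one, mul_one]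
      comm := fun u v h p => by
        rw [mul_assoc, mul_assoc, ← map_mul, ← map_mul, gen_comm G u v h]
      bit := fun p => (actP (D j)).bit p.2
      bit_s := fun v p => by
        have h4 : (p * π j (gen G v)).2 = p.2 * (D j).g v := by
          rw [← hπ₂]
          rfl
        rw [h4]
        exact (actP (D j)).bit_s v p.2 }
  have h2P : ∀ j, IsPGroup 2 (P₁ j × P₂ j) := by
    rintro j ⟨a, b⟩
    obtain ⟨k1, hk1⟩ := hP₁ j a
    obtain ⟨k2, hk2⟩ := (D j).two b
    refine ⟨k1 + k2, ?_⟩
    rw [Prod.pow_mk, pow_add, pow_mul, hk1, one_pow, mul_comm, pow_mul, hk2, one_pow]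
    rfl
  have hbd : ∀ j, (bet ℂ (XP j) ν i : ℝ) ≤ 1 / (j + 1 : ℝ) * Fintype.card (P₁ j × P₂ j) := by
    intro j
    have h3 : bet ℂ (XP j) ν i ≤ bet K (XP j) ν i := bet_complex_le (XP j) ν hν i K
    have h4 := bet_level (F := K) (h2P j) (fun v => π j (gen G v))
      (fun v => by rw [← map_mul, gen_mul_gen, map_one])
      (fun u v huv => by rw [← map_mul, ← map_mul, gen_comm G u v huv])
      (actP (D j)) (XP j) (fun _ _ => rfl)
      ((MulAction.toPermHom (P₂ j)ᵐᵒᵖ (P₂ j)).comp
        ((MulEquiv.inv' (P₂ j)).toMonoidHom.comp (MonoidHom.snd (P₁ j) (P₂ j))))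
      (fun v ω => by
        show ω * ((π j (gen G v)).2)⁻¹ = ω * (D j).g v
        have h5 : (π j (gen G v)).2 = (D j).g v := hπ₂ j v
        rw [h5, inv_eq_of_mul_eq_one_left ((D j).sq v)]) ν hν i
    have h5 := bet_le_dz (K := K) G k hdim (D j) ν i hi
    have h6 := hD j
    have hc2 : (0 : ℝ) < Fintype.card (P₂ j) := by exact_mod_cast Fintype.card_pos
    have h7 : (Fintype.card (P₂ j) * bet ℂ (XP j) ν i : ℝ) ≤
        Fintype.card (P₁ j × P₂ j) * dz K (k + 1) (D j) := by
      exact_mod_cast (Nat.mul_le_mul_left _ h3).trans (h4.trans (Nat.mul_le_mul_left _ h5))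
    have h8 : (Fintype.card (P₁ j × P₂ j) * dz K (k + 1) (D j) : ℝ) ≤
        Fintype.card (P₁ j × P₂ j) * (1 / (j + 1 : ℝ) * Fintype.card (P₂ j)) :=
      mul_le_mul_of_nonneg_left h6 (Nat.cast_nonneg _)
    have h9 : (Fintype.card (P₂ j) : ℝ) * bet ℂ (XP j) ν i ≤ Fintype.card (P₂ j) *
        (1 / (j + 1 : ℝ) * Fintype.card (P₁ j × P₂ j)) := by
      refine (h7.trans h8).trans (le_of_eq ?_)
      ring
    exact le_of_mul_le_mul_left h9 hc2
  have hlim : Tendsto (fun j : ℕ => 1 / ((j : ℝ) + 1)) atTop (𝓝 0) :=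
    tendsto_one_div_add_atTop_nhds_zero_nat
  filter_upwards [hlim.eventually (eventually_le_nhds hη)] with j hj
  refine (hdim' _ (π j) (XP j) (fun _ _ => rfl)).trans ((hbd j).trans ?_)
  exact mul_le_mul_of_nonneg_right hj (Nat.cast_nonneg _)

end Pool.Agent.H77.SW
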